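import Pool.Agent.MP_e6f660_al.L2

/-!
# Gradients of functions on a `G`-set, with respect to a symmetric probability on `G`
-/

namespace Pool.Agent.SchEnds

open Filter Topology

/-- a symmetric probability on the group `G`, given by its masses -/
structure SymmProb {G : Type*} [Group G] (μ : G → ℝ) : Prop where
  nonneg : ∀ s, 0 ≤ μ s
  total : HasSum μ 1
  symm : ∀ s, μ s⁻¹ = μ s

variable {G Y : Type*} [Group G] [MulAction G Y]

/-- the gradient of `u`: a function on pairs `(y, s)` -/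
noncomputable def gr (μ : G → ℝ) (u : Y → ℝ) (e : Y × G) : ℝ :=
  √(μ e.2) * (u e.1 - u (e.2 • e.1))

theorem gr_sq {μ : G → ℝ} (hμ : SymmProb μ) (u : Y → ℝ) (e : Y × G) :
    gr μ u e ^ 2 = μ e.2 * (u e.1 - u (e.2 • e.1)) ^ 2 := by
  rw [gr, mul_pow, Real.sq_sqrt (hμ.nonneg _)]

theorem gr_mul {μ : G → ℝ} (hμ : SymmProb μ) (u v : Y → ℝ) (e : Y × G) :
    gr μ u e * gr μ v e = μ e.2 * ((u e.1 - u (e.2 • e.1)) * (v e.1 - v (e.2 • e.1))) := by
  have : √(μ e.2) * √(μ e.2) = μ e.2 := Real.mul_self_sqrt (hμ.nonneg _)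
  rw [gr, gr]
  calc _ = (√(μ e.2) * √(μ e.2)) * ((u e.1 - u (e.2 • e.1)) * (v e.1 - v (e.2 • e.1))) := by ring
    _ = _ := by rw [this]

/-- the bijection `(y, s) ↦ (s y, s)` -/
def shear : Y × G ≃ Y × G where
  toFun e := (e.2 • e.1, e.2)
  invFun e := (e.2⁻¹ • e.1, e.2)
  left_inv e := by simp
  right_inv e := by simp

/-- the bijection `(y, s) ↦ (s y, s⁻¹)`, which reverses every edge -/
def flip : Y × G ≃ Y × G where
  toFun e := (e.2 • e.1, e.2⁻¹)
  invFun e := (e.2 • e.1, e.2⁻¹)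
  left_inv e := by simp
  right_inv e := by simp

@[simp] theorem flip_apply (y : Y) (s : G) : flip (y, s) = (s • y, s⁻¹) := rfl
@[simp] theorem shear_apply (y : Y) (s : G) : shear (y, s) = (s • y, s) := rfl

theorem summable_gr_of_sq {μ : G → ℝ} (hμ : SymmProb μ) (u : Y → ℝ)
    (hu : Summable fun y => u y ^ 2) : Summable fun e => gr μ u e ^ 2 := by
  have h1 : Summable fun e : Y × G => u e.1 ^ 2 * μ e.2 :=
    hu.mul_of_nonneg hμ.total.summable (fun y => sq_nonneg _) hμ.nonneg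
  have h2 : Summable fun e : Y × G => u (e.2 • e.1) ^ 2 * μ e.2 :=
    (shear (Y := Y) (G := G)).summable_iff.2 h1
  refine Summable.of_nonneg_of_le (fun e => sq_nonneg _) (fun e => ?_)
    ((h1.add h2).mul_left 2)
  rw [gr_sq hμ]
  have := hμ.nonneg e.2
  nlinarith [mul_nonneg this (sq_nonneg (u e.1 + u (e.2 • e.1)))]

theorem summable_sq_finsupp (u : Y →₀ ℝ) : Summable fun y => u y ^ 2 := by
  refine summable_of_ne_finset_zero (s := u.support) fun y hy => ?_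
  simp [Finsupp.notMem_support_iff.1 hy]

/-- the gradient, as a linear map on finitely supported functions -/
noncomputable def D {μ : G → ℝ} (hμ : SymmProb μ) : (Y →₀ ℝ) →ₗ[ℝ] L2 (Y × G) where
  toFun u := mk2 (gr μ u) (summable_gr_of_sq hμ u (summable_sq_finsupp u))
  map_add' u v := by
    ext e
    simp only [mk2_apply, gr, Finsupp.coe_add, Pi.add_apply, lp.coeFn_add]
    ring
  map_smul' c u := by
    ext e
    simp only [mk2_apply, gr, Finsupp.coe_smul, Pi.smul_apply, smul_eq_mul, RingHom.id_apply,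
      lp.coeFn_smul]
    ring

@[simp] theorem D_apply {μ : G → ℝ} (hμ : SymmProb μ) (u : Y →₀ ℝ) (e : Y × G) :
    D hμ u e = gr μ u e := rfl

/-- the closure of the space of gradients of finitely supported functions -/
noncomputable def N0 {μ : G → ℝ} (hμ : SymmProb μ) : Submodule ℝ (L2 (Y × G)) :=
  (LinearMap.range (D (Y := Y) hμ)).topologicalClosure

theorem isClosed_N0 {μ : G → ℝ} (hμ : SymmProb μ) :
    IsClosed ((N0 (Y := Y) hμ : Submodule ℝ (L2 (Y × G))) : Set (L2 (Y × G))) :=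
  Submodule.isClosed_topologicalClosure _

theorem D_mem {μ : G → ℝ} (hμ : SymmProb μ) (u : Y →₀ ℝ) : D hμ u ∈ N0 (Y := Y) hμ :=
  Submodule.le_topologicalClosure _ ⟨u, rfl⟩

theorem exists_approx {μ : G → ℝ} (hμ : SymmProb μ) {h : L2 (Y × G)} (hh : h ∈ N0 (Y := Y) hμ) :
    ∃ u : ℕ → (Y →₀ ℝ), Tendsto (fun n => D hμ (u n)) atTop (𝓝 h) := by
  have : h ∈ closure ((LinearMap.range (D (Y := Y) hμ) : Submodule ℝ (L2 (Y × G))) :
      Set (L2 (Y × G))) := hh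
  obtain ⟨x, hx, hlim⟩ := mem_closure_iff_seq_limit.1 this
  choose u hu using hx
  refine ⟨u, ?_⟩
  simp only [hu]
  exact hlim

/-- the point evaluations are controlled by the energy -/
def Cap {μ : G → ℝ} (hμ : SymmProb μ) (Y : Type*) [MulAction G Y] : Prop :=
  ∀ z : Y, ∃ C, ∀ u : Y →₀ ℝ, |u z| ≤ C * ‖D hμ u‖

theorem exists_gamma {μ : G → ℝ} (hμ : SymmProb μ) (hcap : Cap hμ Y) (z : Y) :
    ∃ γ ∈ N0 (Y := Y) hμ, ∀ u : Y →₀ ℝ, inner ℝ γ (D hμ u) = u z := by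
  classical
  obtain ⟨C, hC⟩ := hcap z
  let e : (Y →₀ ℝ) →ₗ[ℝ] (N0 (Y := Y) hμ) :=
    (D hμ).codRestrict _ (fun u => D_mem hμ u)
  have hdense : DenseRange e := by
    intro h
    obtain ⟨u, hu⟩ := exists_approx hμ h.2
    refine mem_closure_iff_seq_limit.2 ⟨fun n => e (u n), fun n => ⟨u n, rfl⟩, ?_⟩
    rw [tendsto_subtype_rng]
    exact hu
  let f : (Y →₀ ℝ) →ₗ[ℝ] ℝ := Finsupp.lapply z
  have hnorm : ∃ C, ∀ u, ‖f u‖ ≤ C * ‖e u‖ := ⟨C, fun u => hC u⟩
  let F : (N0 (Y := Y) hμ) →L[ℝ] ℝ := f.extendOfNorm e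
  have hF : ∀ u, F (e u) = u z := fun u => LinearMap.extendOfNorm_eq hdense hnorm u
  have : CompleteSpace (N0 (Y := Y) hμ) := (isClosed_N0 hμ).completeSpace_coe
  let γ := (InnerProductSpace.toDual ℝ (N0 (Y := Y) hμ)).symm F
  refine ⟨γ, γ.2, fun u => ?_⟩
  rw [← hF u]
  have := InnerProductSpace.toDual_symm_apply (𝕜 := ℝ) (x := e u) (y := F)
  rw [← this]
  rfl

/-- the representing vectors of the point evaluations -/
structure Rep {μ : G → ℝ} (hμ : SymmProb μ) (γ : Y → L2 (Y × G)) : Prop where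
  mem : ∀ z, γ z ∈ N0 (Y := Y) hμ
  rep : ∀ z (u : Y →₀ ℝ), inner ℝ (γ z) (D hμ u) = u z

theorem exists_rep {μ : G → ℝ} (hμ : SymmProb μ) (hcap : Cap hμ Y) :
    ∃ γ : Y → L2 (Y × G), Rep hμ γ := by
  choose γ h1 h2 using exists_gamma hμ hcap
  exact ⟨γ, h1, h2⟩

theorem Rep.grad {μ : G → ℝ} {hμ : SymmProb μ} {γ : Y → L2 (Y × G)} (hγ : Rep hμ γ)
    {h : L2 (Y × G)} (hh : h ∈ N0 (Y := Y) hμ) (e : Y × G) :
    h e = gr μ (fun x => inner ℝ (γ x) h) e := by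
  obtain ⟨u, hu⟩ := exists_approx hμ hh
  have h1 : Tendsto (fun n => D hμ (u n) e) atTop (𝓝 (h e)) :=
    ((continuous_apply' e).tendsto h).comp hu
  have h2 : ∀ x, Tendsto (fun n => inner ℝ (γ x) (D hμ (u n))) atTop (𝓝 (inner ℝ (γ x) h)) :=
    fun x => tendsto_const_nhds.inner hu
  have h3 : Tendsto (fun n => D hμ (u n) e) atTop (𝓝 (gr μ (fun x => inner ℝ (γ x) h) e)) := by
    have : ∀ n, D hμ (u n) e = gr μ (fun x => inner ℝ (γ x) (D hμ (u n))) e := by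
      intro n
      simp only [hγ.rep, D_apply]
    simp only [this, gr]
    exact ((h2 _).sub (h2 _)).const_mul _
  exact tendsto_nhds_unique h1 h3

/-- the Dirichlet functions: those which are represented by an element of `N0` -/
def InD0 {μ : G → ℝ} (hμ : SymmProb μ) (γ : Y → L2 (Y × G)) (u : Y → ℝ) (h : L2 (Y × G)) : Prop :=
  h ∈ N0 (Y := Y) hμ ∧ ∀ x, u x = inner ℝ (γ x) h

theorem InD0.eq_gr {μ : G → ℝ} {hμ : SymmProb μ} {γ : Y → L2 (Y × G)} (hγ : Rep hμ γ)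
    {u : Y → ℝ} {h : L2 (Y × G)} (hu : InD0 hμ γ u h) (e : Y × G) : h e = gr μ u e := by
  rw [hγ.grad hu.1 e]
  simp only [gr, hu.2]

theorem InD0.finsupp {μ : G → ℝ} {hμ : SymmProb μ} {γ : Y → L2 (Y × G)} (hγ : Rep hμ γ)
    (u : Y →₀ ℝ) : InD0 hμ γ u (D hμ u) :=
  ⟨D_mem hμ u, fun x => (hγ.rep x u).symm⟩

/-- closure under bounded pointwise limits -/
theorem InD0.limit {μ : G → ℝ} {hμ : SymmProb μ} {γ : Y → L2 (Y × G)} (hγ : Rep hμ γ)
    {ι : Type*} {l : Filter ι} [l.NeBot] (u : ι → Y → ℝ) (h : ι → L2 (Y × G)) (M : ℝ)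
    (hu : ∀ i, InD0 hμ γ (u i) (h i)) (hM : ∀ i, ‖h i‖ ≤ M) (v : Y → ℝ)
    (hv : ∀ x, Tendsto (fun i => u i x) l (𝓝 (v x))) :
    ∃ k, InD0 hμ γ v k ∧ ‖k‖ ≤ M ∧
      ∀ x : L2 (Y × G), Tendsto (fun i => inner ℝ x (h i)) l (𝓝 (inner ℝ x k)) := by
  have ha : ∀ e : Y × G, Tendsto (fun i => h i e) l (𝓝 (gr μ v e)) := by
    intro e
    have : ∀ i, h i e = gr μ (u i) e := fun i => (hu i).eq_gr hγ e
    simp only [this, gr]
    exact ((hv _).sub (hv _)).const_mul _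
  obtain ⟨k, hk, hkM, hw⟩ := weak_limit h M hM _ ha
  have hkN : k ∈ N0 (Y := Y) hμ := by
    have : CompleteSpace (N0 (Y := Y) hμ) := (isClosed_N0 hμ).completeSpace_coe
    rw [← Submodule.orthogonal_orthogonal (N0 (Y := Y) hμ), Submodule.mem_orthogonal]
    intro x hx
    have h1 := hw x
    have h2 : ∀ i, inner ℝ x (h i) = 0 := by
      intro i
      rw [real_inner_comm]
      exact hx _ (hu i).1
    simp only [h2] at h1
    exact (tendsto_nhds_unique h1 tendsto_const_nhds)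
  refine ⟨k, ⟨hkN, fun x => ?_⟩, hkM, hw⟩
  have h1 := hw (γ x)
  have h2 : ∀ i, inner ℝ (γ x) (h i) = u i x := fun i => ((hu i).2 x).symm
  simp only [h2] at h1
  exact tendsto_nhds_unique (hv x) h1

end Pool.Agent.SchEnds
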