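import Pool.Agent.MP_e6f660_al.Grad

/-!
# Contractions and the Green kernel
-/

namespace Pool.Agent.SchEnds

open Filter Topology

variable {G Y : Type*} [Group G] [MulAction G Y]

theorem norm_le_of_abs_le {E : Type*} {k h : L2 E} (H : ∀ e, |k e| ≤ |h e|) : ‖k‖ ≤ ‖h‖ := by
  have h1 : ‖k‖ ^ 2 ≤ ‖h‖ ^ 2 :=
    hasSum_le (fun e => sq_le_sq.2 (H e)) (hasSum_normSq k) (hasSum_normSq h)
  exact le_of_sq_le_sq h1 (norm_nonneg _)

section

variable {μ : G → ℝ} {hμ : SymmProb μ} {γ : Y → L2 (Y × G)}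

theorem InD0.contract (hγ : Rep hμ γ) {u : Y → ℝ} {h : L2 (Y × G)} (hu : InD0 hμ γ u h)
    (φ : ℝ → ℝ) (hφ0 : φ 0 = 0) (hφ : ∀ a b, |φ a - φ b| ≤ |a - b|) :
    ∃ k, InD0 hμ γ (fun x => φ (u x)) k ∧ ‖k‖ ≤ ‖h‖ := by
  obtain ⟨w, hw⟩ := exists_approx hμ hu.1
  have hφc : Continuous φ := by
    refine LipschitzWith.continuous (K := 1) (LipschitzWith.of_dist_le_mul fun a b => ?_)
    simpa [Real.dist_eq] using hφ a b
  obtain ⟨M, hM⟩ : ∃ M, ∀ n, ‖D hμ (w n)‖ ≤ M := by
    obtain ⟨M, hM⟩ := (hw.norm.isBoundedUnder_le).bddAbove_range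
    exact ⟨M, fun n => hM ⟨n, rfl⟩⟩
  have hpt : ∀ x, Tendsto (fun n => (w n) x) atTop (𝓝 (u x)) := by
    intro x
    have : Tendsto (fun n => inner ℝ (γ x) (D hμ (w n))) atTop (𝓝 (inner ℝ (γ x) h)) :=
      tendsto_const_nhds.inner hw
    simpa only [hγ.rep, ← hu.2] using this
  have hb : ∀ n, ‖D hμ (Finsupp.mapRange φ hφ0 (w n))‖ ≤ ‖D hμ (w n)‖ := by
    intro n
    refine norm_le_of_abs_le fun e => ?_
    simp only [D_apply, gr, Finsupp.mapRange_apply, abs_mul]
    exact mul_le_mul_of_nonneg_left (hφ _ _) (abs_nonneg _)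
  obtain ⟨k, hk, -, -⟩ := InD0.limit hγ (fun n => (Finsupp.mapRange φ hφ0 (w n) : Y → ℝ))
    (fun n => D hμ (Finsupp.mapRange φ hφ0 (w n))) M (fun n => InD0.finsupp hγ _)
    (fun n => (hb n).trans (hM n)) (fun x => φ (u x)) (fun x => by
      simp only [Finsupp.mapRange_apply]
      exact (hφc.tendsto _).comp (hpt x))
  refine ⟨k, hk, norm_le_of_abs_le fun e => ?_⟩
  rw [hk.eq_gr hγ, hu.eq_gr hγ]
  simp only [gr, abs_mul]
  exact mul_le_mul_of_nonneg_left (hφ _ _) (abs_nonneg _)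

theorem InD0.eq_zero (hγ : Rep hμ γ) {u : Y → ℝ} {h : L2 (Y × G)} (hu : InD0 hμ γ u h)
    (H : ∀ e, gr μ u e = 0) (x : Y) : u x = 0 := by
  have : h = 0 := by
    ext e
    rw [hu.eq_gr hγ, H e]
    rfl
  rw [hu.2, this, inner_zero_right]

theorem InD0.const_eq_zero [Nonempty Y] (hγ : Rep hμ γ) {c : ℝ} {h : L2 (Y × G)}
    (hu : InD0 hμ γ (fun _ => c) h) : c = 0 :=
  hu.eq_zero hγ (fun e => by simp [gr]) (Classical.arbitrary Y)

theorem InD0.neg {u : Y → ℝ} {h : L2 (Y × G)} (hu : InD0 hμ γ u h) :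
    InD0 hμ γ (fun x => - u x) (-h) := by
  refine ⟨Submodule.neg_mem _ hu.1, fun x => ?_⟩
  show -u x = _
  rw [inner_neg_right, hu.2]

theorem hasSum_lap (hμ : SymmProb μ) (v : Y → ℝ) (h : L2 (Y × G)) (hv : ∀ e, h e = gr μ v e)
    (x : Y) : HasSum (fun s => μ s * (v x - v (s • x)))
      (inner ℝ (D hμ (Finsupp.single x 1)) h / 2) := by
  classical
  have hsum : Summable (fun s => μ s * (v x - v (s • x))) := by
    have h1 : Summable (fun s => (h (x, s)) ^ 2) :=
      (summable_sq h).comp_injective (fun a b hab => (Prod.mk.inj hab).2)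
    have h2 : Summable (fun s => μ s * (v x - v (s • x)) ^ 2) := by
      refine h1.congr fun s => ?_
      rw [hv, gr_sq hμ]
    refine Summable.of_norm_bounded (hμ.total.summable.add h2) fun s => ?_
    rw [Real.norm_eq_abs, abs_mul, abs_of_nonneg (hμ.nonneg s)]
    have h3 := hμ.nonneg s
    have h4 : |v x - v (s • x)| ≤ 1 + (v x - v (s • x)) ^ 2 := by
      rw [← sq_abs]
      nlinarith [sq_nonneg (|v x - v (s • x)| - 1), abs_nonneg (v x - v (s • x))]
    calc μ s * |v x - v (s • x)| ≤ μ s * (1 + (v x - v (s • x)) ^ 2) :=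
          mul_le_mul_of_nonneg_left h4 h3
      _ = μ s + μ s * (v x - v (s • x)) ^ 2 := by ring
  obtain ⟨T, hT⟩ := hsum
  let A : Y × G → ℝ := fun e => if e.1 = x then μ e.2 * (v x - v (e.2 • x)) else 0
  have hA : HasSum A T := by
    have hinj : Function.Injective (fun s : G => (x, s)) := fun a b hab => (Prod.mk.inj hab).2
    rw [← hinj.hasSum_iff]
    · have : A ∘ (fun s : G => (x, s)) = fun s => μ s * (v x - v (s • x)) := by
        funext s
        simp [A]
      rw [this]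
      exact hT
    · rintro ⟨y, s⟩ hy
      have : y ≠ x := by
        rintro rfl
        exact hy ⟨s, rfl⟩
      simp [A, this]
  have hA2 : HasSum (A ∘ flip) T := (flip (Y := Y) (G := G)).hasSum_iff.2 hA
  have h3 := hA.add hA2
  have h4 : HasSum (fun e => (D hμ (Finsupp.single x 1)) e * h e) (T + T) := by
    refine h3.congr_fun ?_ |> id
    rintro ⟨y, s⟩
    simp only [D_apply, hv]
    rw [gr_mul hμ]
    simp only [Function.comp_apply, flip_apply, A, Finsupp.single_apply]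
    by_cases h5 : y = x <;> by_cases h6 : s • y = x
    · subst h5
      have h7 : s⁻¹ • y = y := by
        conv_lhs => rw [← h6]
        simp
      simp [h6, h7]
    · subst h5
      have : ¬ (y = s • y) := fun h => h6 h.symm
      simp [h6, this]
    · have h7 : y = s⁻¹ • x := by rw [← h6]; simp
      have h8 : ¬ x = y := fun h => h5 h.symm
      simp only [h6, h5, h8, if_true, if_false, zero_sub, hμ.symm]
      rw [← h7]
      ring
    · have h8 : ¬ x = y := fun h => h5 h.symm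
      have h9 : ¬ x = s • y := fun h => h6 h.symm
      simp [h5, h6, h8, h9]
  have h5 := h4.unique (hasSum_inner' _ _)
  have h6 : T = inner ℝ (D hμ (Finsupp.single x 1)) h / 2 := by linarith
  rw [← h6]
  exact hT

/-- a function with gradient orthogonal to all finitely supported gradients is harmonic -/
theorem hasSum_harm (hμ : SymmProb μ) (v : Y → ℝ) (h : L2 (Y × G)) (hv : ∀ e, h e = gr μ v e)
    (x : Y) : HasSum (fun s => μ s * v (s • x))
      (v x - inner ℝ (D hμ (Finsupp.single x 1)) h / 2) := by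
  have h1 := hasSum_lap hμ v h hv x
  have h2 : HasSum (fun s => μ s * v x) (1 * v x) := hμ.total.mul_right _
  have h3 := h2.sub h1
  rw [one_mul] at h3
  refine h3.congr_fun ?_ |> id
  intro s
  ring

/-- the Green kernel -/
noncomputable def gk (γ : Y → L2 (Y × G)) (x z : Y) : ℝ := inner ℝ (γ x) (γ z)

omit [Group G] [MulAction G Y] in
theorem gk_comm (γ : Y → L2 (Y × G)) (x z : Y) : gk γ x z = gk γ z x := real_inner_comm _ _

theorem Rep.inD0 (hγ : Rep hμ γ) (z : Y) : InD0 hμ γ (fun x => gk γ x z) (γ z) :=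
  ⟨hγ.mem z, fun _ => rfl⟩

omit [Group G] [MulAction G Y] in
theorem gk_self_nonneg (γ : Y → L2 (Y × G)) (z : Y) : 0 ≤ gk γ z z :=
  real_inner_self_nonneg

omit [Group G] [MulAction G Y] in
theorem gk_self_eq (γ : Y → L2 (Y × G)) (z : Y) : gk γ z z = ‖γ z‖ ^ 2 :=
  real_inner_self_eq_norm_sq _

theorem gk_mem_Icc (hγ : Rep hμ γ) (x z : Y) : gk γ x z ∈ Set.Icc 0 (gk γ z z) := by
  set c := gk γ z z with hc
  have hc0 : 0 ≤ c := gk_self_nonneg γ z
  obtain ⟨k, hk, hkn⟩ := (hγ.inD0 z).contract hγ (fun t => max 0 (min t c)) (by simp [hc0])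
    (fun a b => by
      refine (abs_max_sub_max_le_max _ _ _ _).trans ?_
      rw [sub_self, abs_zero]
      refine max_le (abs_nonneg _) ?_
      refine (abs_min_sub_min_le_max _ _ _ _).trans ?_
      simp)
  have h1 : inner ℝ (γ z) k = c := by
    rw [← hk.2 z]
    simp only [← hc, min_self]
    exact max_eq_right hc0
  have h2 : ‖k - γ z‖ ^ 2 ≤ 0 := by
    rw [norm_sub_sq_real, real_inner_comm, h1]
    have h3 : ‖γ z‖ ^ 2 = c := (gk_self_eq γ z).symm
    have h4 : ‖k‖ ^ 2 ≤ ‖γ z‖ ^ 2 := pow_le_pow_left₀ (norm_nonneg _) hkn 2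
    linarith
  have h3 : k = γ z := by
    have : ‖k - γ z‖ = 0 := by
      have := sq_nonneg ‖k - γ z‖
      exact pow_eq_zero_iff (two_ne_zero) |>.1 (le_antisymm h2 this)
    exact sub_eq_zero.1 (norm_eq_zero.1 this)
  have h4 : gk γ x z = max 0 (min (gk γ x z) c) := by
    have := hk.2 x
    rw [h3] at this
    exact this.symm
  rw [h4]
  exact ⟨le_max_left _ _, max_le hc0 (min_le_right _ _)⟩

theorem gk_le_left (hγ : Rep hμ γ) (x z : Y) : gk γ x z ≤ gk γ x x := by
  rw [gk_comm]; exact (gk_mem_Icc hγ z x).2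

theorem gk_lap [DecidableEq Y] (hγ : Rep hμ γ) (x z : Y) :
    HasSum (fun s => μ s * (gk γ x z - gk γ (s • x) z)) ((if z = x then 1 else 0) / 2) := by
  have h1 := hasSum_lap hμ (fun x => gk γ x z) (γ z) (fun e => (hγ.inD0 z).eq_gr hγ e) x
  have h2 : inner ℝ (D hμ (Finsupp.single x 1)) (γ z) = if z = x then (1 : ℝ) else 0 := by
    rw [real_inner_comm, hγ.rep, Finsupp.single_apply]
    simp only [eq_comm]
  rw [h2] at h1
  exact h1

theorem gk_step (hγ : Rep hμ γ) {s : G} (hs : 0 < μ s) (x : Y) :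
    gk γ x x ≤ gk γ (s • x) (s • x) + 1 / (2 * μ s) := by
  classical
  have h1 := gk_lap hγ x x
  simp only [if_true] at h1
  have h2 : μ s * (gk γ x x - gk γ (s • x) x) ≤ 1 / 2 := by
    refine le_hasSum h1 s fun t _ => ?_
    exact mul_nonneg (hμ.nonneg t) (sub_nonneg.2 (gk_mem_Icc hγ (t • x) x).2)
  have h3 : gk γ (s • x) x ≤ gk γ (s • x) (s • x) := gk_le_left hγ _ _
  have h4 : gk γ x x - gk γ (s • x) x ≤ 1 / (2 * μ s) := by
    rw [le_div_iff₀ (by positivity)]
    linarith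
  linarith

theorem gk_bound (hγ : Rep hμ γ) (had : Subgroup.closure {s | 0 < μ s} = ⊤) (g : G) :
    ∃ C, ∀ y : Y, |gk γ (g • y) (g • y) - gk γ y y| ≤ C := by
  have hg : g ∈ Subgroup.closure {s | 0 < μ s} := by rw [had]; trivial
  induction hg using Subgroup.closure_induction with
  | mem s hs =>
    have hs' : 0 < μ s⁻¹ := by rw [hμ.symm]; exact hs
    refine ⟨1 / (2 * μ s), fun y => abs_le.2 ⟨?_, ?_⟩⟩
    · have := gk_step hγ hs y
      linarith
    · have := gk_step hγ hs' (s • y)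
      rw [inv_smul_smul, hμ.symm] at this
      linarith
  | one => exact ⟨0, fun y => by simp⟩
  | mul a b _ _ ha hb =>
    obtain ⟨A, hA⟩ := ha
    obtain ⟨B, hB⟩ := hb
    refine ⟨A + B, fun y => ?_⟩
    have h1 := hA (b • y)
    have h2 := hB y
    rw [mul_smul]
    calc _ = |(gk γ (a • b • y) (a • b • y) - gk γ (b • y) (b • y))
          + (gk γ (b • y) (b • y) - gk γ y y)| := by ring_nf
      _ ≤ _ := abs_add_le _ _
      _ ≤ A + B := add_le_add h1 h2
  | inv a _ ha =>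
    obtain ⟨A, hA⟩ := ha
    refine ⟨A, fun y => ?_⟩
    have h1 := hA (a⁻¹ • y)
    rw [smul_inv_smul, abs_sub_comm] at h1
    exact h1

end

end Pool.Agent.SchEnds
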