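import Mathlib

/-!
# Square summable families: pointwise convergence of bounded families is weak convergence
-/

namespace Pool.Agent.SchEnds

open Filter Topology

/-- real square summable families indexed by `E` -/
abbrev L2 (E : Type*) := lp (fun _ : E => ℝ) 2

variable {E : Type*}

theorem memL2 {a : E → ℝ} : Memℓp a 2 ↔ Summable fun e => a e ^ 2 := by
  rw [memℓp_gen_iff (by norm_num)]
  simp

/-- build an element of `L2` -/
noncomputable def mk2 (a : E → ℝ) (h : Summable fun e => a e ^ 2) : L2 E :=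
  ⟨a, memL2.2 h⟩

@[simp] theorem mk2_apply (a : E → ℝ) (h) (e : E) : mk2 a h e = a e := rfl

theorem hasSum_inner' (f g : L2 E) : HasSum (fun e => f e * g e) (inner ℝ f g) := by
  have := lp.hasSum_inner (𝕜 := ℝ) f g
  simpa [mul_comm] using this

theorem hasSum_normSq (f : L2 E) : HasSum (fun e => f e ^ 2) (‖f‖ ^ 2) := by
  have := hasSum_inner' f f
  rw [real_inner_self_eq_norm_sq] at this
  simpa [sq] using this

theorem summable_sq (f : L2 E) : Summable (fun e => f e ^ 2) := (hasSum_normSq f).summable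

theorem continuous_apply' (e : E) : Continuous (fun f : L2 E => f e) :=
  (lp.evalCLM ℝ (fun _ : E => ℝ) 2 e).continuous

theorem weak_limit {ι : Type*} {l : Filter ι} [l.NeBot] (h : ι → L2 E) (M : ℝ)
    (hM : ∀ i, ‖h i‖ ≤ M) (a : E → ℝ) (ha : ∀ e, Tendsto (fun i => h i e) l (𝓝 (a e))) :
    ∃ k : L2 E, (∀ e, k e = a e) ∧ ‖k‖ ≤ M ∧
      ∀ x : L2 E, Tendsto (fun i => inner ℝ x (h i)) l (𝓝 (inner ℝ x k)) := by
  classical
  have hM0 : 0 ≤ M := by
    obtain ⟨i⟩ := l.nonempty_of_neBot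
    exact (norm_nonneg _).trans (hM i)
  have hlim : Tendsto (id fun i => h i : ι → ∀ a : E, ℝ) l (𝓝 a) := by
    rw [tendsto_pi_nhds]
    exact ha
  have hmem : Memℓp a 2 := by
    refine lp.memℓp_of_tendsto ?_ hlim
    rw [isBounded_iff_forall_norm_le]
    refine ⟨M, ?_⟩
    rintro _ ⟨i, rfl⟩
    exact hM i
  let k : L2 E := ⟨a, hmem⟩
  have hk : ‖k‖ ≤ M := lp.norm_le_of_tendsto (Eventually.of_forall hM) (f := k) hlim
  refine ⟨k, fun e => rfl, hk, fun x => ?_⟩
  rw [Metric.tendsto_nhds]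
  intro ε hε
  have hs := lp.hasSum_single (p := 2) ENNReal.ofNat_ne_top x
  rw [HasSum] at hs
  have hs' := (Metric.tendsto_nhds.1 hs (ε / (4 * (M + 1))) (by positivity)).exists
  obtain ⟨s, hs⟩ := hs'
  set y : L2 E := ∑ b ∈ s, lp.single 2 b (x b) with hy
  have hyt : Tendsto (fun i => inner ℝ y (h i)) l (𝓝 (inner ℝ y k)) := by
    have h1 : ∀ f : L2 E, inner ℝ y f = ∑ b ∈ s, x b * f b := by
      intro f
      rw [hy, sum_inner]
      refine Finset.sum_congr rfl fun b _ => ?_
      rw [lp.inner_single_left]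
      simp [mul_comm]
    simp only [h1]
    exact tendsto_finsetSum _ fun b _ => (ha b).const_mul _
  have h2 := Metric.tendsto_nhds.1 hyt (ε / 2) (by positivity)
  filter_upwards [h2] with i hi
  rw [Real.dist_eq] at hi ⊢
  have h3 : inner ℝ x (h i) - inner ℝ x k
      = (inner ℝ y (h i) - inner ℝ y k) + inner ℝ (x - y) (h i - k) := by
    simp only [inner_sub_left, inner_sub_right]; ring
  have h4 : |inner ℝ (x - y) (h i - k)| ≤ ‖x - y‖ * ‖h i - k‖ := abs_real_inner_le_norm _ _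
  have h5 : ‖h i - k‖ ≤ 2 * M := (norm_sub_le _ _).trans (by linarith [hM i])
  have h6 : ‖x - y‖ ≤ ε / (4 * (M + 1)) := by
    rw [← dist_eq_norm, dist_comm]; exact hs.le
  have h7 : ‖x - y‖ * ‖h i - k‖ ≤ ε / (4 * (M + 1)) * (2 * M) :=
    mul_le_mul h6 h5 (norm_nonneg _) (by positivity)
  have h8 : ε / (4 * (M + 1)) * (2 * M) < ε / 2 := by
    rw [div_mul_eq_mul_div, div_lt_div_iff₀ (by positivity) (by positivity)]
    nlinarith
  calc |inner ℝ x (h i) - inner ℝ x k|
      ≤ |inner ℝ y (h i) - inner ℝ y k| + |inner ℝ (x - y) (h i - k)| := by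
        rw [h3]; exact abs_add_le _ _
    _ < ε := by linarith

end Pool.Agent.SchEnds
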