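import Pool.Agent.MP_e6f660_al.Grad

/-!
# Transience of a finite symmetric walk on a `G`-set controls point evaluations by the energy
-/

namespace Pool.Agent.SchEnds

open Filter Topology

variable {G Y : Type*} [Group G] [MulAction G Y]

open Classical in
/-- the probability that the walk on `Y` started at `o`, whose steps are `y ↦ s y` with `s`
uniform in `S`, is at `y` after `n` steps -/
noncomputable def walkProb (S : Finset G) (o : Y) : ℕ → Y → ℝ
  | 0, y => if y = o then 1 else 0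
  | n + 1, y => (∑ s ∈ S, walkProb S o n (s⁻¹ • y)) / S.card

/-- translation on square summable functions -/
noncomputable def tr (g : G) : L2 Y →ₗ[ℝ] L2 Y where
  toFun u := mk2 (fun y => u (g⁻¹ • y))
    ((MulAction.toPerm g⁻¹ : Equiv.Perm Y).summable_iff.2 (summable_sq u))
  map_add' u v := by ext y; rfl
  map_smul' c u := by ext y; rfl

@[simp] theorem tr_apply (g : G) (u : L2 Y) (y : Y) : tr g u y = u (g⁻¹ • y) := rfl

theorem inner_tr (g : G) (u v : L2 Y) : inner ℝ (tr g u) (tr g v) = inner ℝ u v := by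
  have h1 := hasSum_inner' u v
  have h2 := (MulAction.toPerm g⁻¹ : Equiv.Perm Y).hasSum_iff.2 h1
  exact (hasSum_inner' (tr g u) (tr g v)).unique h2

theorem tr_mul (g h : G) (u : L2 Y) : tr (g * h) u = tr g (tr h u) := by
  ext y
  simp [mul_smul]

@[simp] theorem tr_one (u : L2 Y) : tr (1 : G) u = u := by
  ext y
  simp

theorem norm_tr (g : G) (u : L2 Y) : ‖tr g u‖ = ‖u‖ := by
  have h := inner_tr g u u
  rw [real_inner_self_eq_norm_sq, real_inner_self_eq_norm_sq] at h
  exact (sq_eq_sq₀ (norm_nonneg _) (norm_nonneg _)).1 h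

theorem inner_tr_left (g : G) (u v : L2 Y) : inner ℝ (tr g u) v = inner ℝ u (tr g⁻¹ v) := by
  rw [← inner_tr g⁻¹ (tr g u) v, ← tr_mul]
  simp

theorem norm_sub_tr_mul (g h : G) (u : L2 Y) :
    ‖u - tr (g * h) u‖ ≤ ‖u - tr g u‖ + ‖u - tr h u‖ := by
  have h1 : u - tr (g * h) u = (u - tr g u) + tr g (u - tr h u) := by
    rw [tr_mul, map_sub]; abel
  rw [h1]
  refine (norm_add_le _ _).trans ?_
  rw [norm_tr]

theorem norm_sub_tr_inv (g : G) (u : L2 Y) : ‖u - tr g⁻¹ u‖ = ‖u - tr g u‖ := by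
  have h1 : tr g (u - tr g⁻¹ u) = -(u - tr g u) := by
    rw [map_sub, ← tr_mul]
    simp
  rw [← norm_tr g, h1, norm_neg]

/-- the averaging operator -/
noncomputable def av (S : Finset G) : L2 Y →ₗ[ℝ] L2 Y := (S.card : ℝ)⁻¹ • ∑ s ∈ S, tr s

theorem av_apply (S : Finset G) (u : L2 Y) : av S u = (S.card : ℝ)⁻¹ • ∑ s ∈ S, tr s u := by
  simp [av, LinearMap.sum_apply]

omit [Group G] [MulAction G Y] in
theorem sum_coe (S : Finset G) (f : G → L2 Y) (y : Y) : (∑ s ∈ S, f s) y = ∑ s ∈ S, f s y := by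
  classical
  induction S using Finset.induction_on with
  | empty => rfl
  | insert a T ha ih =>
    rw [Finset.sum_insert ha, Finset.sum_insert ha, ← ih]
    rfl

theorem av_coe (S : Finset G) (u : L2 Y) (y : Y) :
    av S u y = (∑ s ∈ S, u (s⁻¹ • y)) / S.card := by
  rw [av_apply]
  have : ((S.card : ℝ)⁻¹ • ∑ s ∈ S, tr s u : L2 Y) y = (S.card : ℝ)⁻¹ * (∑ s ∈ S, tr s u : L2 Y) y :=
    rfl
  rw [this, sum_coe, div_eq_inv_mul]
  rfl

theorem inner_av (S : Finset G) (hS : ∀ s ∈ S, s⁻¹ ∈ S) (u v : L2 Y) :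
    inner ℝ (av S u) v = inner ℝ u (av S v) := by
  rw [av_apply, av_apply, real_inner_smul_left, real_inner_smul_right, sum_inner, inner_sum]
  congr 1
  refine Finset.sum_bij' (fun s _ => s⁻¹) (fun s _ => s⁻¹) hS hS (by simp) (by simp) ?_
  intro s _
  exact inner_tr_left s u v

/-- the energy with respect to `S` -/
theorem inner_sub_av (S : Finset G) (hne : S.Nonempty) (u : L2 Y) :
    inner ℝ u (u - av S u) = (∑ s ∈ S, ‖u - tr s u‖ ^ 2) / (2 * S.card) := by
  have hc : (S.card : ℝ) ≠ 0 := by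
    have := hne.card_pos
    positivity
  have h1 : ∀ s : G, ‖u - tr s u‖ ^ 2 = 2 * ‖u‖ ^ 2 - 2 * inner ℝ u (tr s u) := by
    intro s
    rw [norm_sub_sq_real, norm_tr]
    ring
  rw [inner_sub_right, av_apply, real_inner_smul_right, inner_sum, real_inner_self_eq_norm_sq]
  simp only [h1, Finset.sum_sub_distrib, Finset.sum_const, nsmul_eq_mul, ← Finset.mul_sum]
  field_simp

theorem posdef (S : Finset G) (hne : S.Nonempty) (u : L2 Y) :
    0 ≤ inner ℝ u (u - av S u) := by
  rw [inner_sub_av S hne]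
  positivity

theorem cauchy (S : Finset G) (hne : S.Nonempty) (hS : ∀ s ∈ S, s⁻¹ ∈ S) (u v : L2 Y) :
    (inner ℝ u (v - av S v)) ^ 2 ≤ inner ℝ u (u - av S u) * inner ℝ v (v - av S v) := by
  set a := inner ℝ v (v - av S v) with ha
  set b := inner ℝ u (v - av S v) with hb
  set c := inner ℝ u (u - av S u) with hc
  have h1 : ∀ t : ℝ, 0 ≤ a * (t * t) + (2 * b) * t + c := by
    intro t
    have h2 := posdef S hne (u + t • v)
    have h3 : inner ℝ v (u - av S u) = b := by
      rw [hb, inner_sub_right, inner_sub_right, ← inner_av S hS, real_inner_comm v u,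
        real_inner_comm (av S v) u]
    have h4 : inner ℝ (u + t • v) ((u + t • v) - av S (u + t • v))
        = a * (t * t) + (2 * b) * t + c := by
      have h5 : (u + t • v) - av S (u + t • v) = (u - av S u) + t • (v - av S v) := by
        rw [map_add, map_smul, smul_sub]; abel
      rw [h5, inner_add_left, inner_add_right, inner_add_right, real_inner_smul_left,
        real_inner_smul_left, real_inner_smul_right, real_inner_smul_right, h3, ← ha, ← hb, ← hc]
      ring
    rw [h4] at h2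
    exact h2
  have h2 := discrim_le_zero h1
  rw [discrim] at h2
  nlinarith

section

variable [DecidableEq Y]

/-- point mass -/
noncomputable def pt (o : Y) : L2 Y := lp.single 2 o (1 : ℝ)

theorem pt_apply (o y : Y) : pt o y = if y = o then 1 else 0 := by
  rw [pt, lp.single_apply]
  simp [Pi.single_apply]

theorem inner_pt (o : Y) (u : L2 Y) : inner ℝ (pt o) u = u o := by
  rw [pt, lp.inner_single_left]
  simp

theorem walkProb_eq (S : Finset G) (o : Y) (n : ℕ) (y : Y) :
    walkProb S o n y = ((av S : L2 Y →ₗ[ℝ] L2 Y) ^ n) (pt o) y := by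
  induction n generalizing y with
  | zero =>
    simp only [walkProb, pow_zero, Module.End.one_apply, pt_apply]
    congr
  | succ n ih =>
    simp only [walkProb, ih]
    rw [pow_succ', Module.End.mul_apply, av_coe]

omit [DecidableEq Y] in
theorem walkProb_nonneg (S : Finset G) (o : Y) (n : ℕ) (y : Y) : 0 ≤ walkProb S o n y := by
  induction n generalizing y with
  | zero => simp only [walkProb]; split <;> norm_num
  | succ n ih =>
    simp only [walkProb]
    exact div_nonneg (Finset.sum_nonneg fun s _ => ih _) (Nat.cast_nonneg _)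

omit [DecidableEq Y] in
theorem inner_av_pow (S : Finset G) (hS : ∀ s ∈ S, s⁻¹ ∈ S) (n : ℕ) (u v : L2 Y) :
    inner ℝ (((av S : L2 Y →ₗ[ℝ] L2 Y) ^ n) u) v
      = inner ℝ u (((av S : L2 Y →ₗ[ℝ] L2 Y) ^ n) v) := by
  induction n generalizing u v with
  | zero => simp
  | succ n ih =>
    rw [pow_succ, Module.End.mul_apply, ih, inner_av S hS, ← Module.End.mul_apply,
      ← pow_succ', ← pow_succ]

/-- if the return probabilities are summable, then the value at `o` is controlled by the energy -/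
theorem sq_le_energy (S : Finset G) (hne : S.Nonempty) (hS : ∀ s ∈ S, s⁻¹ ∈ S) (o : Y)
    (htr : Summable fun n => walkProb S o n o) (u : L2 Y) :
    (u o) ^ 2 ≤ (∑' n, walkProb S o n o) * inner ℝ u (u - av S u) := by
  set T : L2 Y →ₗ[ℝ] L2 Y := av S with hT
  set Q : ℝ := ∑' n, walkProb S o n o with hQ
  set X := inner ℝ u (u - av S u) with hX
  have hX0 : 0 ≤ X := posdef S hne u
  let g : ℕ → L2 Y := fun N => ∑ n ∈ Finset.range N, (T ^ n) (pt o)
  have hg : ∀ N, g N - T (g N) = pt o - (T ^ N) (pt o) := by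
    intro N
    induction N with
    | zero => simp [g]
    | succ N ih =>
      have h1 : g (N + 1) = g N + (T ^ N) (pt o) := Finset.sum_range_succ _ _
      rw [h1, map_add, ← Module.End.mul_apply T, ← pow_succ']
      have h2 : g N = T (g N) + (pt o - (T ^ N) (pt o)) := by rw [← ih]; abel
      calc g N + (T ^ N) (pt o) - (T (g N) + (T ^ (N + 1)) (pt o))
          = (g N - T (g N)) + (T ^ N) (pt o) - (T ^ (N + 1)) (pt o) := by abel
        _ = _ := by rw [ih]; abel
  have hret : ∀ n, inner ℝ (pt o) ((T ^ n) (pt o)) = walkProb S o n o := by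
    intro n
    rw [inner_pt, walkProb_eq]
  have hgg : ∀ N, inner ℝ (g N) (g N - T (g N)) ≤ Q := by
    intro N
    rw [hg, inner_sub_right]
    have h1 : inner ℝ (g N) (pt o) = ∑ n ∈ Finset.range N, walkProb S o n o := by
      rw [real_inner_comm, inner_sum]
      exact Finset.sum_congr rfl fun n _ => hret n
    have h2 : 0 ≤ inner ℝ (g N) ((T ^ N) (pt o)) := by
      rw [sum_inner]
      refine Finset.sum_nonneg fun n _ => ?_
      rw [inner_av_pow S hS, ← Module.End.mul_apply, ← pow_add, hret]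
      exact walkProb_nonneg _ _ _ _
    have h3 : ∑ n ∈ Finset.range N, walkProb S o n o ≤ Q :=
      htr.sum_le_tsum _ fun n _ => walkProb_nonneg _ _ _ _
    rw [h1]
    linarith
  have hlim : Tendsto (fun N => (T ^ N) (pt o)) atTop (𝓝 (0 : L2 Y)) := by
    rw [tendsto_zero_iff_norm_tendsto_zero]
    have h1 : ∀ N, ‖(T ^ N) (pt o)‖ ^ 2 = walkProb S o (N + N) o := by
      intro N
      rw [← real_inner_self_eq_norm_sq, inner_av_pow S hS, ← Module.End.mul_apply, ← pow_add, hret]
    have h2 : Tendsto (fun N => walkProb S o (N + N) o) atTop (𝓝 0) :=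
      htr.tendsto_atTop_zero.comp (tendsto_atTop_mono (fun n => Nat.le_add_left n n) tendsto_id)
    have h3 : Tendsto (fun N => ‖(T ^ N) (pt o)‖ ^ 2) atTop (𝓝 0) := by
      simpa only [h1] using h2
    have h4 := h3.sqrt
    simpa [Real.sqrt_sq (norm_nonneg _)] using h4
  have h1 : ∀ N, u o - inner ℝ u ((T ^ N) (pt o)) = inner ℝ u (g N - T (g N)) := by
    intro N
    rw [hg, inner_sub_right, real_inner_comm (pt o), inner_pt]
  have h2 : ∀ N, (u o - inner ℝ u ((T ^ N) (pt o))) ^ 2 ≤ Q * X := by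
    intro N
    rw [h1]
    refine (cauchy S hne hS u (g N)).trans ?_
    rw [mul_comm]
    exact mul_le_mul_of_nonneg_right (hgg N) hX0
  have h3 : Tendsto (fun N => (u o - inner ℝ u ((T ^ N) (pt o))) ^ 2) atTop
      (𝓝 ((u o - inner ℝ u (0 : L2 Y)) ^ 2)) :=
    (tendsto_const_nhds.sub (tendsto_const_nhds.inner hlim)).pow 2
  rw [inner_zero_right, sub_zero] at h3
  exact le_of_tendsto h3 (Eventually.of_forall h2)

end

/-- finitely supported functions as square summable functions -/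
noncomputable def em (u : Y →₀ ℝ) : L2 Y := mk2 u (summable_sq_finsupp u)

omit [Group G] [MulAction G Y] in
@[simp] theorem em_apply (u : Y →₀ ℝ) (y : Y) : em u y = u y := rfl

theorem energy_elem {μ : G → ℝ} (hμ : SymmProb μ) (had : Subgroup.closure {s | 0 < μ s} = ⊤)
    (Y : Type*) [MulAction G Y] (g : G) :
    ∃ C, 0 ≤ C ∧ ∀ u : Y →₀ ℝ, ‖em u - tr g (em u)‖ ≤ C * ‖D hμ u‖ := by
  have hg : g ∈ Subgroup.closure {s | 0 < μ s} := by rw [had]; trivial
  induction hg using Subgroup.closure_induction with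
  | mem s hs =>
    have hs0 : 0 < μ s := hs
    refine ⟨√(1 / μ s), Real.sqrt_nonneg _, fun u => ?_⟩
    have h1 : ‖em u - tr s (em u)‖ ^ 2 ≤ 1 / μ s * ‖D hμ u‖ ^ 2 := by
      have h2 := (hasSum_normSq (em u - tr s (em u)))
      have h3 := (MulAction.toPerm s : Equiv.Perm Y).hasSum_iff.2 h2
      have h4 : HasSum (fun e => (D hμ u e) ^ 2) (‖D hμ u‖ ^ 2) := hasSum_normSq _
      have h5 : Summable (fun y : Y => (D hμ u (y, s)) ^ 2) :=
        h4.summable.comp_injective (i := fun y => (y, s)) (fun a b hab => (Prod.mk.inj hab).1)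
      have h6 : ∑' y : Y, (D hμ u (y, s)) ^ 2 ≤ ‖D hμ u‖ ^ 2 := by
        rw [← h4.tsum_eq]
        exact tsum_comp_le_tsum_of_inj h4.summable (fun _ => sq_nonneg _)
          (i := fun y => (y, s)) (fun a b hab => (Prod.mk.inj hab).1)
      have h7 : ‖em u - tr s (em u)‖ ^ 2 = 1 / μ s * ∑' y : Y, (D hμ u (y, s)) ^ 2 := by
        rw [← tsum_mul_left, ← h3.tsum_eq]
        refine tsum_congr fun y => ?_
        rw [D_apply, gr_sq hμ]
        have h8 : ((em u - tr s (em u) : L2 Y) (s • y)) = u (s • y) - u (s⁻¹ • s • y) := rfl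
        rw [Function.comp_apply, MulAction.toPerm_apply, h8, inv_smul_smul]
        field_simp
        ring
      rw [h7]
      exact mul_le_mul_of_nonneg_left h6 (by positivity)
    refine le_of_sq_le_sq ?_ (by positivity)
    rw [mul_pow, Real.sq_sqrt (by positivity)]
    exact h1
  | one => exact ⟨0, le_rfl, fun u => by simp⟩
  | mul a b _ _ ha hb =>
    obtain ⟨A, hA0, hA⟩ := ha
    obtain ⟨B, hB0, hB⟩ := hb
    refine ⟨A + B, add_nonneg hA0 hB0, fun u => ?_⟩
    rw [add_mul]
    exact (norm_sub_tr_mul a b _).trans (add_le_add (hA u) (hB u))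
  | inv a _ ha =>
    obtain ⟨A, hA0, hA⟩ := ha
    exact ⟨A, hA0, fun u => by rw [norm_sub_tr_inv]; exact hA u⟩

/-- a capacity bound at one point for one finite set `S` gives all capacity bounds for `μ` -/
theorem cap_of_finset {μ : G → ℝ} (hμ : SymmProb μ) (had : Subgroup.closure {s | 0 < μ s} = ⊤)
    [MulAction.IsPretransitive G Y] (S : Finset G) (o : Y) (C : ℝ)
    (hC : ∀ u : Y →₀ ℝ, (u o) ^ 2 ≤ C * ∑ s ∈ S, ‖em u - tr s (em u)‖ ^ 2) : Cap hμ Y := by
  choose A hA0 hA using fun g : G => energy_elem hμ had Y g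
  have ho : ∃ B, 0 ≤ B ∧ ∀ u : Y →₀ ℝ, |u o| ≤ B * ‖D hμ u‖ := by
    refine ⟨√(|C| * ∑ s ∈ S, A s ^ 2), Real.sqrt_nonneg _, fun u => ?_⟩
    refine abs_le_of_sq_le_sq' ?_ (by positivity) |> abs_le.2
    rw [mul_pow, Real.sq_sqrt (by positivity)]
    refine (hC u).trans ?_
    have h1 : ∑ s ∈ S, ‖em u - tr s (em u)‖ ^ 2 ≤ (∑ s ∈ S, A s ^ 2) * ‖D hμ u‖ ^ 2 := by
      rw [Finset.sum_mul]
      refine Finset.sum_le_sum fun s _ => ?_
      rw [← mul_pow]
      exact pow_le_pow_left₀ (norm_nonneg _) (hA s u) 2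
    calc C * ∑ s ∈ S, ‖em u - tr s (em u)‖ ^ 2 ≤ |C| * ∑ s ∈ S, ‖em u - tr s (em u)‖ ^ 2 :=
          mul_le_mul_of_nonneg_right (le_abs_self _) (Finset.sum_nonneg fun _ _ => sq_nonneg _)
      _ ≤ |C| * ((∑ s ∈ S, A s ^ 2) * ‖D hμ u‖ ^ 2) := mul_le_mul_of_nonneg_left h1 (abs_nonneg _)
      _ = _ := by ring
  obtain ⟨B, hB0, hB⟩ := ho
  intro z
  obtain ⟨g, hg⟩ := MulAction.exists_smul_eq G o z
  refine ⟨A g + B, fun u => ?_⟩
  have h1 : |u z - u o| ≤ A g * ‖D hμ u‖ := by
    refine le_trans ?_ (hA g u)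
    have h2 : ((em u - tr g (em u) : L2 Y) z) = u z - u (g⁻¹ • z) := rfl
    have h3 : g⁻¹ • z = o := by rw [← hg, inv_smul_smul]
    rw [h3] at h2
    rw [← h2]
    exact lp.norm_apply_le_norm (E := fun _ : Y => ℝ) (p := 2) (by norm_num)
      (em u - tr g (em u)) z
  calc |u z| = |(u z - u o) + u o| := by ring_nf
    _ ≤ |u z - u o| + |u o| := abs_add_le _ _
    _ ≤ _ := by rw [add_mul]; exact add_le_add h1 (hB u)

theorem cap_of_transient {μ : G → ℝ} (hμ : SymmProb μ)
    (had : Subgroup.closure {s | 0 < μ s} = ⊤) [MulAction.IsPretransitive G Y] (S : Finset G)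
    (hne : S.Nonempty) (hS : ∀ s ∈ S, s⁻¹ ∈ S) (o : Y)
    (htr : Summable fun n => walkProb S o n o) : Cap hμ Y := by
  classical
  refine cap_of_finset hμ had S o ((∑' n, walkProb S o n o) / (2 * S.card)) fun u => ?_
  have h1 := sq_le_energy S hne hS o htr (em u)
  rw [inner_sub_av S hne, em_apply] at h1
  rw [div_mul_eq_mul_div]
  rw [mul_div_assoc'] at h1
  exact h1

end Pool.Agent.SchEnds
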