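import Pool.Agent.MP_e6f660_al.Two
import Pool.Agent.MP_e6f660_al.Walk

/-!
# Word length, growth of the Green kernel, and the main theorem
-/

namespace Pool.Agent.SchEnds

open Filter Topology

variable {G Y : Type*} [Group G] [MulAction G Y]

/-- word length of `x` with respect to `K`: the least length of a word in `K` with product `x` -/
noncomputable def wlen (K : Set G) (x : G) : ℕ :=
  sInf {n | ∃ l : List G, l.length = n ∧ (∀ s ∈ l, s ∈ K) ∧ l.prod = x}

theorem exists_word {K : Set G} (hKs : ∀ s ∈ K, s⁻¹ ∈ K) (hK : Subgroup.closure K = ⊤) (x : G) :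
    ∃ l : List G, l.length = wlen K x ∧ (∀ s ∈ l, s ∈ K) ∧ l.prod = x := by
  have hx : x ∈ Subgroup.closure K := by rw [hK]; trivial
  have hex : ∃ l : List G, (∀ s ∈ l, s ∈ K) ∧ l.prod = x := by
    induction hx using Subgroup.closure_induction with
    | mem s hs => exact ⟨[s], by simpa using hs, by simp⟩
    | one => exact ⟨[], by simp, rfl⟩
    | mul a b _ _ ha hb =>
      obtain ⟨l, hl, rfl⟩ := ha
      obtain ⟨m, hm, rfl⟩ := hb
      refine ⟨l ++ m, fun s hs => ?_, List.prod_append⟩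
      rcases List.mem_append.1 hs with h | h
      · exact hl s h
      · exact hm s h
    | inv a _ ha =>
      obtain ⟨l, hl, rfl⟩ := ha
      refine ⟨(l.map (·⁻¹)).reverse, fun s hs => ?_, (List.prod_inv_reverse l).symm⟩
      rw [List.mem_reverse, List.mem_map] at hs
      obtain ⟨t, ht, rfl⟩ := hs
      exact hKs t (hl t ht)
  obtain ⟨l, hl, hp⟩ := hex
  have hne : {n | ∃ l : List G, l.length = n ∧ (∀ s ∈ l, s ∈ K) ∧ l.prod = x}.Nonempty :=
    ⟨l.length, l, rfl, hl, hp⟩
  exact Nat.sInf_mem hne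

theorem wlen_le {K : Set G} {l : List G} (hl : ∀ s ∈ l, s ∈ K) : wlen K l.prod ≤ l.length :=
  Nat.sInf_le ⟨l, rfl, hl, rfl⟩

theorem wlen_inv_le {K : Set G} (hKs : ∀ s ∈ K, s⁻¹ ∈ K) (hK : Subgroup.closure K = ⊤) (x : G) :
    wlen K x⁻¹ ≤ wlen K x := by
  obtain ⟨l, hl, hlK, hp⟩ := exists_word hKs hK x
  rw [← hl, ← hp, List.prod_inv_reverse]
  refine (wlen_le fun s hs => ?_).trans (by simp)
  rw [List.mem_reverse, List.mem_map] at hs
  obtain ⟨t, ht, rfl⟩ := hs
  exact hKs t (hlK t ht)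

section

variable {μ : G → ℝ} {hμ : SymmProb μ} {γ : Y → L2 (Y × G)}

theorem gk_list (hγ : Rep hμ γ) (had : Subgroup.closure {s | 0 < μ s} = ⊤) {K : Set G}
    (hKf : K.Finite) :
    ∃ C, 0 ≤ C ∧ ∀ l : List G, (∀ s ∈ l, s ∈ K) → ∀ y : Y,
      |gk γ (l.prod • y) (l.prod • y) - gk γ y y| ≤ C * l.length := by
  choose c hc using gk_bound hγ had
  have hb : BddAbove (c '' K) := (hKf.image c).bddAbove
  obtain ⟨C, hC⟩ := hb
  refine ⟨max C 0, le_max_right _ _, fun l => ?_⟩
  induction l with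
  | nil => intro _ y; simp
  | cons a l ih =>
    intro hl y
    have h1 := ih (fun s hs => hl s (List.mem_cons_of_mem _ hs)) y
    have h2 := hc a (l.prod • y)
    have h3 : c a ≤ max C 0 := (hC ⟨a, hl a List.mem_cons_self, rfl⟩).trans (le_max_left _ _)
    rw [List.prod_cons, mul_smul, List.length_cons]
    push_cast
    calc |gk γ (a • l.prod • y) (a • l.prod • y) - gk γ y y|
        = |(gk γ (a • l.prod • y) (a • l.prod • y) - gk γ (l.prod • y) (l.prod • y))
          + (gk γ (l.prod • y) (l.prod • y) - gk γ y y)| := by ring_nf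
      _ ≤ _ := abs_add_le _ _
      _ ≤ max C 0 + max C 0 * l.length := add_le_add (h2.trans h3) h1
      _ = max C 0 * (l.length + 1) := by ring

theorem dom_summable (hγ : Rep hμ γ) (had : Subgroup.closure {s | 0 < μ s} = ⊤) {K : Set G}
    (hKf : K.Finite) (hKs : ∀ s ∈ K, s⁻¹ ∈ K) (hK : Subgroup.closure K = ⊤)
    (hmom : Summable fun s => μ s * (wlen K s : ℝ) ^ 2) (x : Y) :
    Summable fun s => μ s * gk γ (s • x) (s • x) := by
  obtain ⟨C, hC0, hC⟩ := gk_list hγ had hKf
  have h1 : Summable fun s => μ s * gk γ x x + C * (μ s * (wlen K s : ℝ) ^ 2) :=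
    (hμ.total.summable.mul_right _).add (hmom.mul_left C)
  refine Summable.of_nonneg_of_le (fun s => mul_nonneg (hμ.nonneg s) (gk_self_nonneg _ _))
    (fun s => ?_) h1
  obtain ⟨l, hl, hlK, hp⟩ := exists_word hKs hK s
  have h2 := (abs_le.1 (hC l hlK x)).2
  rw [hp, hl] at h2
  have h3 : (wlen K s : ℝ) ≤ (wlen K s : ℝ) ^ 2 := by
    have : wlen K s ≤ wlen K s ^ 2 := Nat.le_self_pow two_ne_zero _
    exact_mod_cast this
  have h4 : gk γ (s • x) (s • x) ≤ gk γ x x + C * (wlen K s : ℝ) ^ 2 := by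
    have := mul_le_mul_of_nonneg_left h3 hC0
    linarith
  calc _ ≤ μ s * (gk γ x x + C * (wlen K s : ℝ) ^ 2) := mul_le_mul_of_nonneg_left h4 (hμ.nonneg s)
    _ = _ := by ring

theorem bd_summable (hγ : Rep hμ γ) (had : Subgroup.closure {s | 0 < μ s} = ⊤) {K : Set G}
    (hKf : K.Finite) (hKs : ∀ s ∈ K, s⁻¹ ∈ K) (hK : Subgroup.closure K = ⊤)
    (hmom : Summable fun s => μ s * (wlen K s : ℝ) ^ 2)
    (w : Y → ℝ) (hw : ∀ k ∈ K, Summable fun y => |w y - w (k • y)| * (1 + gk γ y y)) :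
    Summable fun e : Y × G => μ e.2 * (|w e.1 - w (e.2 • e.1)| * (1 + gk γ e.1 e.1)) := by
  obtain ⟨C, hC0, hC⟩ := gk_list hγ had hKf
  set θ : Y → ℝ := fun y => 1 + gk γ y y with hθ
  have hθ1 : ∀ y, 1 ≤ θ y := fun y => by
    have := gk_self_nonneg γ y
    simp only [hθ]
    linarith
  have hθ0 : ∀ y, 0 ≤ θ y := fun y => zero_le_one.trans (hθ1 y)
  set R : G → ℝ := fun g => ∑' y, |w y - w (g • y)| * θ y with hR
  have hRnn : ∀ g, 0 ≤ R g := fun g => tsum_nonneg fun y => mul_nonneg (abs_nonneg _) (hθ0 y)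
  obtain ⟨A, hA⟩ := (hKf.image R).bddAbove
  have hA' : ∀ k ∈ K, R k ≤ max A 0 := fun k hk => (hA ⟨k, hk, rfl⟩).trans (le_max_left _ _)
  have hA0 : 0 ≤ max A 0 := le_max_right _ _
  set B := max A 0 * (1 + C) with hB
  have hB0 : 0 ≤ B := mul_nonneg hA0 (by linarith)
  have hlist : ∀ l : List G, (∀ s ∈ l, s ∈ K) →
      (Summable fun y => |w y - w (l.prod • y)| * θ y) ∧ R l.prod ≤ B * (l.length : ℝ) ^ 2 := by
    intro l
    induction l with
    | nil =>
      intro _
      simp [R]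
    | cons g l ih =>
      intro hl
      have hl' : ∀ s ∈ l, s ∈ K := fun s hs => hl s (List.mem_cons_of_mem _ hs)
      obtain ⟨hs1, hb1⟩ := ih hl'
      have hgK : g ∈ K := hl g List.mem_cons_self
      have hsg := hw g hgK
      have hn : (0 : ℝ) ≤ l.length := Nat.cast_nonneg _
      have hθl : ∀ y, θ (l.prod⁻¹ • y) ≤ (1 + C * l.length) * θ y := by
        intro y
        have h4 := (abs_le.1 (hC l hl' (l.prod⁻¹ • y))).1
        rw [smul_inv_smul] at h4
        have h5 : θ (l.prod⁻¹ • y) ≤ θ y + C * l.length := by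
          simp only [hθ]
          linarith
        have h6 : C * l.length ≤ C * l.length * θ y :=
          le_mul_of_one_le_right (mul_nonneg hC0 hn) (hθ1 y)
        linarith
      have hs3 : Summable fun y => |w y - w (g • y)| * θ (l.prod⁻¹ • y) := by
        refine Summable.of_nonneg_of_le (fun y => mul_nonneg (abs_nonneg _) (hθ0 _)) (fun y => ?_)
          (hsg.mul_left (1 + C * l.length))
        calc |w y - w (g • y)| * θ (l.prod⁻¹ • y)
            ≤ |w y - w (g • y)| * ((1 + C * l.length) * θ y) :=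
              mul_le_mul_of_nonneg_left (hθl y) (abs_nonneg _)
          _ = (1 + C * l.length) * (|w y - w (g • y)| * θ y) := by ring
      have hb3 : ∑' y, |w y - w (g • y)| * θ (l.prod⁻¹ • y) ≤ (1 + C * l.length) * R g := by
        rw [hR]
        simp only
        rw [← tsum_mul_left]
        refine hs3.tsum_le_tsum (fun y => ?_) (hsg.mul_left (1 + C * l.length))
        calc |w y - w (g • y)| * θ (l.prod⁻¹ • y)
            ≤ |w y - w (g • y)| * ((1 + C * l.length) * θ y) :=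
              mul_le_mul_of_nonneg_left (hθl y) (abs_nonneg _)
          _ = (1 + C * l.length) * (|w y - w (g • y)| * θ y) := by ring
      have hs2 : HasSum (fun y => |w (l.prod • y) - w (g • l.prod • y)| * θ y)
          (∑' y, |w y - w (g • y)| * θ (l.prod⁻¹ • y)) := by
        have := (MulAction.toPerm l.prod : Equiv.Perm Y).hasSum_iff.2 hs3.hasSum
        refine this.congr_fun ?_ |> id
        intro y
        simp
      have hle : ∀ y, |w y - w ((g * l.prod) • y)| * θ y ≤ |w y - w (l.prod • y)| * θ y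
          + |w (l.prod • y) - w (g • l.prod • y)| * θ y := by
        intro y
        rw [← add_mul, mul_smul]
        exact mul_le_mul_of_nonneg_right (abs_sub_le _ _ _) (hθ0 y)
      have hs4 : Summable fun y => |w y - w ((g * l.prod) • y)| * θ y :=
        Summable.of_nonneg_of_le (fun y => mul_nonneg (abs_nonneg _) (hθ0 y)) hle
          (hs1.add hs2.summable)
      rw [List.prod_cons, List.length_cons]
      refine ⟨hs4, ?_⟩
      have h1 : R (g * l.prod) ≤ R l.prod + (1 + C * l.length) * R g := by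
        have h2 := hs4.tsum_le_tsum hle (hs1.add hs2.summable)
        rw [hs1.tsum_add hs2.summable, hs2.tsum_eq] at h2
        exact h2.trans (by linarith)
      push_cast
      have h5 : (1 + C * l.length) * R g ≤ (1 + C * l.length) * max A 0 :=
        mul_le_mul_of_nonneg_left (hA' g hgK) (by positivity)
      have h6 : (1 + C * l.length) * max A 0 ≤ B * (2 * l.length + 1) := by
        rw [hB]
        have h7 : 0 ≤ max A 0 * (2 * (l.length : ℝ)) := by positivity
        have h8 : 0 ≤ max A 0 * C := mul_nonneg hA0 hC0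
        nlinarith [mul_nonneg h8 hn]
      calc R (g * l.prod) ≤ R l.prod + (1 + C * l.length) * R g := h1
        _ ≤ B * (l.length : ℝ) ^ 2 + B * (2 * l.length + 1) := by linarith
        _ = B * ((l.length : ℝ) + 1) ^ 2 := by ring
  have hRw : ∀ s, (Summable fun y => |w y - w (s • y)| * θ y) ∧
      R s ≤ B * (wlen K s : ℝ) ^ 2 := by
    intro s
    obtain ⟨l, hl, hlK, hp⟩ := exists_word hKs hK s
    have := hlist l hlK
    rwa [hp, hl] at this
  rw [← (Equiv.prodComm G Y).summable_iff]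
  have hnn : 0 ≤ ((fun e : Y × G => μ e.2 * (|w e.1 - w (e.2 • e.1)| * (1 + gk γ e.1 e.1)))
      ∘ (Equiv.prodComm G Y)) := fun e => mul_nonneg (hμ.nonneg _)
    (mul_nonneg (abs_nonneg _) (hθ0 _))
  rw [summable_prod_of_nonneg hnn]
  refine ⟨fun s => (hRw s).1.mul_left (μ s), ?_⟩
  have h1 : ∀ s, ∑' y, ((fun e : Y × G => μ e.2 * (|w e.1 - w (e.2 • e.1)| * (1 + gk γ e.1 e.1)))
      ∘ (Equiv.prodComm G Y)) (s, y) = μ s * R s := by
    intro s
    simp only [Function.comp_apply, Equiv.prodComm_apply, Prod.swap_prod_mk]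
    rw [tsum_mul_left]
  simp only [h1]
  refine Summable.of_nonneg_of_le (fun s => mul_nonneg (hμ.nonneg s) (hRnn s)) (fun s => ?_)
    (hmom.mul_left B)
  calc μ s * R s ≤ μ s * (B * (wlen K s : ℝ) ^ 2) :=
        mul_le_mul_of_nonneg_left (hRw s).2 (hμ.nonneg s)
    _ = _ := by ring

end

/-- distance from `o` to `y` in the Schreier graph of the action with respect to `K` -/
noncomputable def sdist (K : Set G) (o y : Y) : ℕ := sInf {n | ∃ x : G, x • o = y ∧ wlen K x = n}

/-- the main theorem, for a `G`-set with controlled point evaluations and a function with values in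
the unit interval -/
theorem main_unit {μ : G → ℝ} (hμ : SymmProb μ) (had : Subgroup.closure {s | 0 < μ s} = ⊤)
    [MulAction.IsPretransitive G Y] (hcap : Cap hμ Y) {K : Set G}
    (hKf : K.Finite) (hKs : ∀ s ∈ K, s⁻¹ ∈ K) (hK : Subgroup.closure K = ⊤)
    (hmom : Summable fun s => μ s * (wlen K s : ℝ) ^ 2) (o : Y) (w : Y → ℝ)
    (hw01 : ∀ y, w y ∈ Set.Icc (0 : ℝ) 1) (hnc : ¬ ∃ c, Tendsto w cofinite (𝓝 c))
    (hw : ∀ k ∈ K, Summable fun y => (1 + (sdist K o y : ℝ)) * |w y - w (k • y)|) :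
    ∃ f : G → ℝ, (∀ x, 0 < f x) ∧ (∀ x, HasSum (fun s => μ s * f (x * s)) (f x)) ∧
      (∃ x y, f x ≠ f y) ∧ ∃ c : ℝ, 0 < c ∧ ∀ x, |f x| ≤ c * (1 + wlen K x) := by
  classical
  obtain ⟨γ, hγ⟩ := exists_rep hμ hcap
  obtain ⟨C, hC0, hC⟩ := gk_list hγ had hKf
  have hgo : 0 ≤ gk γ o o := gk_self_nonneg γ o
  have hsd : ∀ y : Y, gk γ y y ≤ gk γ o o + C * sdist K o y := by
    intro y
    have hne : {n | ∃ x : G, x • o = y ∧ wlen K x = n}.Nonempty := by
      obtain ⟨x, hx⟩ := MulAction.exists_smul_eq G o y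
      exact ⟨_, x, hx, rfl⟩
    obtain ⟨x, hx, hxl⟩ := Nat.sInf_mem hne
    obtain ⟨l, hl, hlK, hp⟩ := exists_word hKs hK x
    have h1 := (abs_le.1 (hC l hlK o)).2
    rw [hp, hl, hx, hxl] at h1
    have : (sdist K o y : ℝ) = ((sInf {n | ∃ x : G, x • o = y ∧ wlen K x = n} : ℕ) : ℝ) := rfl
    rw [this]
    linarith
  have hw' : ∀ k ∈ K, Summable fun y => |w y - w (k • y)| * (1 + gk γ y y) := by
    intro k hk
    refine Summable.of_nonneg_of_le (fun y => mul_nonneg (abs_nonneg _) (by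
      linarith [gk_self_nonneg γ y])) (fun y => ?_) ((hw k hk).mul_left (1 + gk γ o o + C))
    have h1 := hsd y
    have h2 : (0 : ℝ) ≤ sdist K o y := Nat.cast_nonneg _
    have h3 : 1 + gk γ y y ≤ (1 + gk γ o o + C) * (1 + sdist K o y) := by
      nlinarith [mul_nonneg hgo h2]
    calc |w y - w (k • y)| * (1 + gk γ y y)
        ≤ |w y - w (k • y)| * ((1 + gk γ o o + C) * (1 + sdist K o y)) :=
          mul_le_mul_of_nonneg_left h3 (abs_nonneg _)
      _ = _ := by ring
  have : Nonempty Y := ⟨o⟩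
  obtain ⟨F, hF, hpos, hle, x0, y0, hxy⟩ := main_Y hγ had
    (dom_summable hγ had hKf hKs hK hmom) w hw01 hnc (bd_summable hγ had hKf hKs hK hmom w hw')
  refine ⟨fun x => F (x⁻¹ • o), fun x => hpos _, fun x => ?_, ?_, ?_⟩
  · have h1 := (Equiv.inv G).hasSum_iff.2 (hF (x⁻¹ • o))
    refine h1.congr_fun ?_ |> id
    intro s
    simp only [Function.comp_apply, Equiv.inv_apply, hμ.symm, mul_inv_rev, mul_smul]
  · obtain ⟨a, ha⟩ := MulAction.exists_smul_eq G o x0
    obtain ⟨b, hb⟩ := MulAction.exists_smul_eq G o y0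
    refine ⟨a⁻¹, b⁻¹, ?_⟩
    simp only [inv_inv, ha, hb]
    exact hxy
  · refine ⟨2 + gk γ o o + C, by linarith, fun x => ?_⟩
    rw [abs_of_pos (hpos _)]
    obtain ⟨l, hl, hlK, hp⟩ := exists_word hKs hK x⁻¹
    have h1 := (abs_le.1 (hC l hlK o)).2
    rw [hp, hl] at h1
    have h2 : (wlen K x⁻¹ : ℝ) ≤ wlen K x := by exact_mod_cast wlen_inv_le hKs hK x
    have h3 := hle (x⁻¹ • o)
    have h4 : C * (wlen K x⁻¹ : ℝ) ≤ C * wlen K x := mul_le_mul_of_nonneg_left h2 hC0
    have h5 : (0 : ℝ) ≤ wlen K x := Nat.cast_nonneg _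
    calc F (x⁻¹ • o) ≤ 2 + gk γ o o + C * wlen K x := by linarith
      _ ≤ (2 + gk γ o o + C) * (1 + wlen K x) := by nlinarith [mul_nonneg hgo h5]

/-- the main theorem, for a `G`-set with controlled point evaluations -/
theorem main_cap {μ : G → ℝ} (hμ : SymmProb μ) (had : Subgroup.closure {s | 0 < μ s} = ⊤)
    [MulAction.IsPretransitive G Y] (hcap : Cap hμ Y) {K : Set G}
    (hKf : K.Finite) (hKs : ∀ s ∈ K, s⁻¹ ∈ K) (hK : Subgroup.closure K = ⊤)
    (hmom : Summable fun s => μ s * (wlen K s : ℝ) ^ 2) (o : Y) (w : Y → ℝ)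
    (M : ℝ) (hM : ∀ y, |w y| ≤ M) (hnc : ¬ ∃ c, Tendsto w cofinite (𝓝 c))
    (hw : ∀ k ∈ K, Summable fun y => (1 + (sdist K o y : ℝ)) * |w y - w (k • y)|) :
    ∃ f : G → ℝ, (∀ x, 0 < f x) ∧ (∀ x, HasSum (fun s => μ s * f (x * s)) (f x)) ∧
      (∃ x y, f x ≠ f y) ∧ ∃ c : ℝ, 0 < c ∧ ∀ x, |f x| ≤ c * (1 + wlen K x) := by
  set N : ℝ := |M| + 1 with hN
  have hN0 : 0 < N := by positivity
  have hMN : ∀ y, |w y| ≤ N := fun y => (hM y).trans ((le_abs_self M).trans (by linarith))
  refine main_unit hμ had hcap hKf hKs hK hmom o (fun y => (w y + N) / (2 * N)) (fun y => ?_) ?_ ?_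
  · have h1 := abs_le.1 (hMN y)
    constructor
    · exact div_nonneg (by linarith) (by positivity)
    · rw [div_le_one (by positivity)]
      linarith
  · rintro ⟨c, hc⟩
    refine hnc ⟨2 * N * c - N, ?_⟩
    have h1 := (hc.const_mul (2 * N)).sub_const N
    refine h1.congr fun y => ?_
    field_simp
    ring
  · intro k hk
    refine ((hw k hk).mul_left (1 / (2 * N))).congr fun y => ?_
    have h1 : (w y + N) / (2 * N) - (w (k • y) + N) / (2 * N)
        = (1 / (2 * N)) * (w y - w (k • y)) := by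
      field_simp
      ring
    rw [h1, abs_mul, abs_of_pos (by positivity : (0 : ℝ) < 1 / (2 * N))]
    ring

/-- the indicator function of an infinite, co-infinite set with finite boundary satisfies the
hypotheses on `w` -/
theorem ends_hyp {K : Set G} (o : Y) (P : Set Y) (hP : P.Infinite)
    (hPc : Pᶜ.Infinite) (hend : ∀ g : G, {y | y ∈ P ∧ g • y ∉ P}.Finite) :
    (∀ y, |P.indicator (fun _ => (1 : ℝ)) y| ≤ 1) ∧
    (¬ ∃ c, Tendsto (P.indicator (fun _ => (1 : ℝ))) cofinite (𝓝 c)) ∧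
    ∀ k ∈ K, Summable fun y => (1 + (sdist K o y : ℝ)) *
      |P.indicator (fun _ => (1 : ℝ)) y - P.indicator (fun _ => (1 : ℝ)) (k • y)| := by
  classical
  refine ⟨fun y => ?_, ?_, fun k _ => ?_⟩
  · by_cases hy : y ∈ P <;> simp [hy]
  · rintro ⟨c, hc⟩
    have key : ∀ (Q : Set Y) (a : ℝ), Q.Infinite →
        (∀ y ∈ Q, P.indicator (fun _ => (1 : ℝ)) y = a) → c = a := by
      intro Q a hQ ha
      have hne : (cofinite ⊓ 𝓟 Q : Filter Y).NeBot := hQ.cofinite_inf_principal_neBot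
      have h1 : Tendsto (P.indicator (fun _ => (1 : ℝ))) (cofinite ⊓ 𝓟 Q) (𝓝 c) :=
        hc.mono_left inf_le_left
      have h2 : Tendsto (P.indicator (fun _ => (1 : ℝ))) (cofinite ⊓ 𝓟 Q) (𝓝 a) := by
        refine tendsto_const_nhds.congr' ?_
        have : ∀ᶠ y in cofinite ⊓ 𝓟 Q, y ∈ Q := mem_inf_of_right (mem_principal_self Q)
        filter_upwards [this] with y hy
        rw [ha y hy]
      exact tendsto_nhds_unique h1 h2
    have h1 := key P 1 hP (fun y hy => by simp [hy])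
    have h2 := key Pᶜ 0 hPc (fun y hy => by simpa using hy)
    rw [h1] at h2
    norm_num at h2
  · have h2 : {y | y ∉ P ∧ k • y ∈ P}.Finite := by
      refine ((hend k⁻¹).image (fun y => k⁻¹ • y)).subset ?_
      rintro y ⟨h3, h4⟩
      refine ⟨k • y, ⟨h4, ?_⟩, ?_⟩
      · rwa [inv_smul_smul]
      · simp
    refine summable_of_ne_finset_zero (s := ((hend k).union h2).toFinset) fun y hy => ?_
    rw [Set.Finite.mem_toFinset] at hy
    have h3 : P.indicator (fun _ => (1 : ℝ)) y = P.indicator (fun _ => (1 : ℝ)) (k • y) := by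
      by_cases h3 : y ∈ P <;> by_cases h4 : k • y ∈ P
      · simp [h3, h4]
      · exact absurd (Or.inl ⟨h3, h4⟩) hy
      · exact absurd (Or.inr ⟨h3, h4⟩) hy
      · simp [h3, h4]
    rw [h3, sub_self, abs_zero, mul_zero]

end Pool.Agent.SchEnds
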