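import Pool.Agent.MP_e6f660_al.Green

/-!
# Limits of Green functions along ultrafilters
-/

namespace Pool.Agent.SchEnds

open Filter Topology

variable {G Y : Type*} [Group G] [MulAction G Y]

/-- `F` satisfies `F x = ∑ μ(s) F(s x)` with absolute convergence -/
def Harm (μ : G → ℝ) (F : Y → ℝ) : Prop := ∀ x, HasSum (fun s => μ s * F (s • x)) (F x)

section

variable {μ : G → ℝ} {hμ : SymmProb μ} {γ : Y → L2 (Y × G)}

theorem Harm.pos (hμ : SymmProb μ) (had : Subgroup.closure {s | 0 < μ s} = ⊤)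
    [MulAction.IsPretransitive G Y] {F : Y → ℝ}
    (hF : Harm μ F) (h0 : ∀ x, 0 ≤ F x) (hne : ∃ x, F x ≠ 0) (x : Y) : 0 < F x := by
  have key : ∀ g : G, ∀ y : Y, F y = 0 ↔ F (g • y) = 0 := by
    have h1 : ∀ s : G, 0 < μ s → ∀ y : Y, F y = 0 → F (s • y) = 0 := by
      intro s hs y hy
      have h2 := hF y
      rw [hy] at h2
      have h3 := (hasSum_zero_iff_of_nonneg (fun t => mul_nonneg (hμ.nonneg t) (h0 _))).1 h2
      have h4 := congrFun h3 s
      simp only [Pi.zero_apply, mul_eq_zero] at h4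
      exact h4.resolve_left hs.ne'
    intro g
    have hg : g ∈ Subgroup.closure {s | 0 < μ s} := by rw [had]; trivial
    induction hg using Subgroup.closure_induction with
    | mem s hs =>
      have hs' : 0 < μ s⁻¹ := by rw [hμ.symm]; exact hs
      refine fun y => ⟨h1 s hs y, fun h => ?_⟩
      have := h1 _ hs' _ h
      rwa [inv_smul_smul] at this
    | one => intro y; simp
    | mul a b _ _ ha hb =>
      intro y
      rw [mul_smul, ← ha, ← hb]
    | inv a _ ha =>
      intro y
      rw [ha (a⁻¹ • y), smul_inv_smul]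
  obtain ⟨y, hy⟩ := hne
  refine lt_of_le_of_ne (h0 x) fun h => hy ?_
  obtain ⟨g, hg⟩ := MulAction.exists_smul_eq G x y
  rw [← hg, ← key]
  exact h.symm

/-- the limit of the Green functions `g(x, z)` as `z` runs along an ultrafilter -/
theorem exists_lim (hγ : Rep hμ γ) (l : Ultrafilter Y) (x : Y) :
    ∃ a ∈ Set.Icc 0 (gk γ x x), Tendsto (fun z => gk γ x z) l (𝓝 a) := by
  have hmem : Set.Icc 0 (gk γ x x) ∈ (l.map fun z => gk γ x z) := by
    refine Ultrafilter.mem_map.2 (univ_mem' fun z => ?_)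
    exact ⟨(gk_mem_Icc hγ x z).1, gk_le_left hγ x z⟩
  obtain ⟨a, ha, hle⟩ := isCompact_Icc.ultrafilter_le_nhds' _ hmem
  exact ⟨a, ha, hle⟩

/-- the limits of Green functions at infinity, if they are not zero, are positive non-constant
harmonic functions -/
theorem lim_harm (hγ : Rep hμ γ) (had : Subgroup.closure {s | 0 < μ s} = ⊤)
    [MulAction.IsPretransitive G Y]
    (hdom : ∀ x : Y, Summable fun s => μ s * gk γ (s • x) (s • x))
    (l : Ultrafilter Y) (hl : (l : Filter Y) ≤ cofinite) (f : Y → ℝ)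
    (hf : ∀ x, Tendsto (fun z => gk γ x z) l (𝓝 (f x))) (hne : ∃ x, f x ≠ 0) :
    Harm μ f ∧ (∀ x, 0 < f x) ∧ (∀ x, f x ≤ gk γ x x) ∧ ∃ x y, f x ≠ f y := by
  classical
  have hf0 : ∀ x, 0 ≤ f x := fun x =>
    ge_of_tendsto (hf x) (Eventually.of_forall fun z => (gk_mem_Icc hγ x z).1)
  have hf1 : ∀ x, f x ≤ gk γ x x := fun x =>
    le_of_tendsto (hf x) (Eventually.of_forall fun z => gk_le_left hγ x z)
  have hH : Harm μ f := by
    intro x
    have hsum : Summable fun s => μ s * f (s • x) :=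
      Summable.of_nonneg_of_le (fun s => mul_nonneg (hμ.nonneg s) (hf0 _))
        (fun s => mul_le_mul_of_nonneg_left (hf1 _) (hμ.nonneg s)) (hdom x)
    have h1 : Tendsto (fun z => ∑' s, μ s * gk γ (s • x) z) l (𝓝 (∑' s, μ s * f (s • x))) := by
      refine tendsto_tsum_of_dominated_convergence (hdom x) (fun s => (hf (s • x)).const_mul _) ?_
      refine Eventually.of_forall fun z s => ?_
      rw [Real.norm_eq_abs, abs_of_nonneg (mul_nonneg (hμ.nonneg s) (gk_mem_Icc hγ _ _).1)]
      exact mul_le_mul_of_nonneg_left (gk_le_left hγ _ _) (hμ.nonneg s)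
    have h2 : ∀ᶠ z in (l : Filter Y), ∑' s, μ s * gk γ (s • x) z = gk γ x z := by
      have h3 : ∀ᶠ z in (l : Filter Y), z ≠ x := by
        have : ({x}ᶜ : Set Y) ∈ (cofinite : Filter Y) := (Set.finite_singleton x).compl_mem_cofinite
        exact hl this
      filter_upwards [h3] with z hz
      have h4 := hasSum_harm hμ (fun y => gk γ y z) (γ z) (fun e => (hγ.inD0 z).eq_gr hγ e) x
      have h5 : inner ℝ (D hμ (Finsupp.single x 1)) (γ z) = 0 := by
        rw [real_inner_comm, hγ.rep, Finsupp.single_apply, if_neg hz.symm]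
      rw [h5] at h4
      simpa using h4.tsum_eq
    have h3 : Tendsto (fun z => gk γ x z) l (𝓝 (∑' s, μ s * f (s • x))) :=
      h1.congr' h2
    have h4 := tendsto_nhds_unique (hf x) h3
    rw [h4]
    exact hsum.hasSum
  have hpos := hH.pos hμ had hf0 hne
  refine ⟨hH, hpos, hf1, ?_⟩
  by_contra hcon
  push Not at hcon
  obtain ⟨o, -⟩ := hne
  set c := f o with hc
  have hc0 : 0 < c := hpos o
  have hfc : ∀ x, f x = c := fun x => hcon x o
  -- truncations
  have hk : ∀ z, ∃ k, InD0 hμ γ (fun x => min (gk γ x z) c) k ∧ ‖k‖ ≤ ‖γ z‖ := by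
    intro z
    obtain ⟨k, hk, hkn⟩ := (hγ.inD0 z).contract hγ (fun t => min t c) (by simp [hc0.le])
      (fun a b => by
        refine (abs_min_sub_min_le_max _ _ _ _).trans ?_
        simp)
    exact ⟨k, hk, hkn⟩
  choose k hk hkn using hk
  have hkc : ∀ z, ‖k z‖ ^ 2 ≤ c := by
    intro z
    have h1 : ‖k z‖ ^ 2 ≤ inner ℝ (γ z) (k z) := by
      refine hasSum_le (fun e => ?_) (hasSum_normSq (k z)) (hasSum_inner' _ _)
      rw [(hk z).eq_gr hγ, (hγ.inD0 z).eq_gr hγ, gr_sq hμ, gr_mul hμ]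
      refine mul_le_mul_of_nonneg_left ?_ (hμ.nonneg _)
      have aux : ∀ a b : ℝ, (min a c - min b c) ^ 2 ≤ (a - b) * (min a c - min b c) := by
        intro a b
        rcases le_total a c with h1 | h1 <;> rcases le_total b c with h2 | h2
        · rw [min_eq_left h1, min_eq_left h2]; nlinarith
        · rw [min_eq_left h1, min_eq_right h2]; nlinarith
        · rw [min_eq_right h1, min_eq_left h2]; nlinarith
        · rw [min_eq_right h1, min_eq_right h2]; nlinarith
      exact aux _ _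
    have h2 : inner ℝ (γ z) (k z) = min (gk γ z z) c := ((hk z).2 z).symm
    rw [h2] at h1
    exact h1.trans (min_le_right _ _)
  have hkn' : ∀ z, ‖k z‖ ≤ √c := fun z => Real.le_sqrt_of_sq_le (hkc z)
  obtain ⟨k', hk', -, -⟩ := InD0.limit hγ (l := (l : Filter Y)) (fun z x => min (gk γ x z) c) k
    (√c) hk hkn' (fun _ => c) (fun x => by
      have h1 : Tendsto (fun z => min (gk γ x z) c) l (𝓝 (min (f x) c)) :=
        (hf x).min tendsto_const_nhds
      rw [hfc x, min_self] at h1
      exact h1)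
  have : Nonempty Y := ⟨o⟩
  exact hc0.ne' (hk'.const_eq_zero hγ)

end

end Pool.Agent.SchEnds
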