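import Pool.Agent.MP_e6f660_al.Lim

/-!
# A function with small gradient and no limit at infinity yields a positive non-constant harmonic function
-/

namespace Pool.Agent.SchEnds

open Filter Topology

variable {G Y : Type*} [Group G] [MulAction G Y]

section

variable {μ : G → ℝ} {hμ : SymmProb μ} {γ : Y → L2 (Y × G)}

/-- a nonnegative function of finite energy below a Dirichlet function is a Dirichlet function -/
theorem InD0.dominated (hγ : Rep hμ γ) {u : Y → ℝ} {h : L2 (Y × G)} (hu : InD0 hμ γ u h)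
    (w : Y → ℝ) (q : L2 (Y × G)) (hw : ∀ e, q e = gr μ w e) (h0 : ∀ x, 0 ≤ w x)
    (hle : ∀ x, w x ≤ u x) : ∃ k, InD0 hμ γ w k := by
  obtain ⟨v, hv⟩ := exists_approx hμ hu.1
  obtain ⟨M, hM⟩ : ∃ M, ∀ n, ‖D hμ (v n)‖ ≤ M := by
    obtain ⟨M, hM⟩ := (hv.norm.isBoundedUnder_le).bddAbove_range
    exact ⟨M, fun n => hM ⟨n, rfl⟩⟩
  have hM0 : 0 ≤ M := (norm_nonneg _).trans (hM 0)
  have hpt : ∀ x, Tendsto (fun n => (v n) x) atTop (𝓝 (u x)) := by
    intro x
    have : Tendsto (fun n => inner ℝ (γ x) (D hμ (v n))) atTop (𝓝 (inner ℝ (γ x) h)) :=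
      tendsto_const_nhds.inner hv
    simpa only [hγ.rep, ← hu.2] using this
  let W : ℕ → (Y →₀ ℝ) := fun n =>
    Finsupp.onFinset (v n).support (fun x => min (w x) |v n x|) (by
      intro x hx
      by_contra hcon
      rw [Finsupp.notMem_support_iff] at hcon
      apply hx
      rw [hcon, abs_zero]
      exact min_eq_right (h0 x))
  have hW : ∀ n x, W n x = min (w x) |v n x| := fun n x => rfl
  have hb : ∀ n, ‖D hμ (W n)‖ ≤ ‖q‖ + M := by
    intro n
    have h1 : ‖D hμ (W n)‖ ^ 2 ≤ ‖q‖ ^ 2 + ‖D hμ (v n)‖ ^ 2 := by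
      refine hasSum_le (fun e => ?_) (hasSum_normSq _) ((hasSum_normSq _).add (hasSum_normSq _))
      rw [hw, D_apply, D_apply, gr_sq hμ, gr_sq hμ, gr_sq hμ, ← mul_add]
      refine mul_le_mul_of_nonneg_left ?_ (hμ.nonneg _)
      rw [hW, hW]
      have h2 := abs_min_sub_min_le_max (w e.1) |v n e.1| (w (e.2 • e.1)) |v n (e.2 • e.1)|
      have h3 : |(|v n e.1| - |v n (e.2 • e.1)|)| ≤ |v n e.1 - v n (e.2 • e.1)| :=
        abs_abs_sub_abs_le_abs_sub _ _
      rw [← sq_abs]
      rcases le_total |w e.1 - w (e.2 • e.1)| |(|v n e.1| - |v n (e.2 • e.1)|)| with h4 | h4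
      · rw [max_eq_right h4] at h2
        have h5 := pow_le_pow_left₀ (abs_nonneg _) (h2.trans h3) 2
        rw [sq_abs (v n e.1 - v n (e.2 • e.1))] at h5
        linarith [sq_nonneg (w e.1 - w (e.2 • e.1))]
      · rw [max_eq_left h4] at h2
        have h5 := pow_le_pow_left₀ (abs_nonneg _) h2 2
        rw [sq_abs (w e.1 - w (e.2 • e.1))] at h5
        linarith [sq_nonneg (v n e.1 - v n (e.2 • e.1))]
    have h2 : ‖D hμ (v n)‖ ^ 2 ≤ M ^ 2 := pow_le_pow_left₀ (norm_nonneg _) (hM n) 2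
    refine le_of_sq_le_sq ?_ (add_nonneg (norm_nonneg _) hM0)
    nlinarith [mul_nonneg (norm_nonneg q) hM0]
  obtain ⟨k, hk, -, -⟩ := InD0.limit hγ (fun n => (W n : Y → ℝ)) (fun n => D hμ (W n)) (‖q‖ + M)
    (fun n => InD0.finsupp hγ _) hb w (fun x => by
      simp only [hW]
      have h1 : Tendsto (fun n => min (w x) |v n x|) atTop (𝓝 (min (w x) |u x|)) :=
        tendsto_const_nhds.min (hpt x).abs
      have h2 : min (w x) |u x| = w x := min_eq_left ((hle x).trans (le_abs_self _))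
      rw [h2] at h1
      exact h1)
  exact ⟨k, hk⟩

theorem clamp_zero (hγ : Rep hμ γ) {H : Y → ℝ} {r : L2 (Y × G)}
    (hr : ∀ h ∈ N0 (Y := Y) hμ, inner ℝ h r = 0) (hrH : ∀ e, r e = gr μ H e)
    {u : Y → ℝ} {h : L2 (Y × G)} (hu : InD0 hμ γ u h) (φ : ℝ → ℝ)
    (hφ : ∀ a b, (φ a - φ b) ^ 2 ≤ (φ a - φ b) * (a - b)) (h0 : ∀ x, 0 ≤ φ (H x))
    (hle : ∀ x, φ (H x) ≤ u x) (x : Y) : φ (H x) = 0 := by
  have hlip : ∀ a b, (φ a - φ b) ^ 2 ≤ (a - b) ^ 2 := by
    intro a b
    nlinarith [hφ a b, sq_nonneg ((φ a - φ b) - (a - b))]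
  have hs : Summable fun e => gr μ (fun x => φ (H x)) e ^ 2 := by
    refine Summable.of_nonneg_of_le (fun e => sq_nonneg _) (fun e => ?_) (summable_sq r)
    rw [hrH, gr_sq hμ, gr_sq hμ]
    exact mul_le_mul_of_nonneg_left (hlip _ _) (hμ.nonneg _)
  obtain ⟨k, hk⟩ := hu.dominated hγ (fun x => φ (H x)) (mk2 _ hs) (fun e => rfl) h0 hle
  have h1 : ‖k‖ ^ 2 ≤ inner ℝ k r := by
    refine hasSum_le (fun e => ?_) (hasSum_normSq k) (hasSum_inner' _ _)
    rw [hrH, hk.eq_gr hγ, gr_sq hμ, gr_mul hμ]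
    exact mul_le_mul_of_nonneg_left (hφ _ _) (hμ.nonneg _)
  rw [hr k hk.1] at h1
  have h2 : k = 0 := by
    have : ‖k‖ = 0 := pow_eq_zero_iff (two_ne_zero) |>.1 (le_antisymm h1 (sq_nonneg _))
    exact norm_eq_zero.1 this
  refine hk.eq_zero hγ (fun e => ?_) x
  rw [← hk.eq_gr hγ, h2]
  rfl

/-- if a Dirichlet function `v` with small gradient has a non-zero limit along an ultrafilter, the
limits of the Green functions along the ultrafilter do not vanish -/
theorem lim_ne_zero (hγ : Rep hμ γ) (v : Y → ℝ) {h : L2 (Y × G)} (hv : InD0 hμ γ v h)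
    (hbd : Summable fun e : Y × G => μ e.2 * (|v e.1 - v (e.2 • e.1)| * gk γ e.1 e.1))
    (l : Ultrafilter Y) {b : ℝ} (hb : b ≠ 0) (hvl : Tendsto v l (𝓝 b)) (f : Y → ℝ)
    (hf : ∀ x, Tendsto (fun z => gk γ x z) l (𝓝 (f x))) : ∃ x, f x ≠ 0 := by
  by_contra hcon
  push Not at hcon
  let a : Y → (Y × G) → ℝ := fun z e => μ e.2 * ((v e.1 - v (e.2 • e.1)) * gk γ e.1 z)
  have hbound : ∀ z e, ‖a z e‖ ≤ μ e.2 * (|v e.1 - v (e.2 • e.1)| * gk γ e.1 e.1) := by
    intro z e
    rw [Real.norm_eq_abs, abs_mul, abs_of_nonneg (hμ.nonneg _), abs_mul,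
      abs_of_nonneg (gk_mem_Icc hγ e.1 z).1]
    exact mul_le_mul_of_nonneg_left
      (mul_le_mul_of_nonneg_left (gk_le_left hγ _ _) (abs_nonneg _)) (hμ.nonneg _)
  have hsum : ∀ z, Summable (a z) := fun z => Summable.of_norm_bounded hbd (hbound z)
  have hval : ∀ z, v z = 2 * ∑' e, a z e := by
    intro z
    obtain ⟨T, hT⟩ := hsum z
    have hT2 : HasSum (a z ∘ flip) T := (flip (Y := Y) (G := G)).hasSum_iff.2 hT
    have h1 := hT.add hT2
    have h2 : HasSum (fun e => (γ z) e * h e) (T + T) := by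
      refine h1.congr_fun ?_ |> id
      rintro ⟨y, s⟩
      rw [(hγ.inD0 z).eq_gr hγ, hv.eq_gr hγ, gr_mul hμ]
      simp only [a, Function.comp_apply, flip_apply, hμ.symm, inv_smul_smul]
      ring
    have h3 := h2.unique (hasSum_inner' _ _)
    rw [← hv.2 z] at h3
    rw [hT.tsum_eq]
    linarith
  have h1 : Tendsto (fun z => ∑' e, a z e) l (𝓝 (∑' e : Y × G, (0 : ℝ))) := by
    refine tendsto_tsum_of_dominated_convergence hbd (fun e => ?_)
      (Eventually.of_forall fun z e => hbound z e)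
    have := ((hf e.1).const_mul (v e.1 - v (e.2 • e.1))).const_mul (μ e.2)
    rw [hcon, mul_zero, mul_zero] at this
    exact this
  rw [tsum_zero] at h1
  have h2 : Tendsto v l (𝓝 (2 * 0)) := by
    have h3 := h1.const_mul 2
    refine h3.congr fun z => ?_
    exact (hval z).symm
  rw [mul_zero] at h2
  exact hb (tendsto_nhds_unique hvl h2)

/-- a bounded function without limit at infinity has, for every `κ`, a limit `a ≠ κ` along some
ultrafilter at infinity -/
theorem exists_ultrafilter {w : Y → ℝ} (hw : ∀ x, w x ∈ Set.Icc (0 : ℝ) 1)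
    (hnc : ¬ ∃ c, Tendsto w cofinite (𝓝 c)) (κ : ℝ) :
    ∃ l : Ultrafilter Y, (l : Filter Y) ≤ cofinite ∧ ∃ a, a ≠ κ ∧ Tendsto w l (𝓝 a) := by
  have h1 : ¬ Tendsto w cofinite (𝓝 κ) := fun h => hnc ⟨κ, h⟩
  rw [tendsto_iff_ultrafilter] at h1
  push Not at h1
  obtain ⟨l, hl, hlw⟩ := h1
  refine ⟨l, hl, ?_⟩
  have hmem : Set.Icc (0 : ℝ) 1 ∈ (l.map w) := Ultrafilter.mem_map.2 (univ_mem' fun z => hw z)
  obtain ⟨a, -, hle⟩ := isCompact_Icc.ultrafilter_le_nhds' _ hmem
  refine ⟨a, ?_, hle⟩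
  rintro rfl
  exact hlw hle

theorem main_Y (hγ : Rep hμ γ) (had : Subgroup.closure {s | 0 < μ s} = ⊤)
    [MulAction.IsPretransitive G Y] [Nonempty Y]
    (hdom : ∀ x : Y, Summable fun s => μ s * gk γ (s • x) (s • x))
    (w : Y → ℝ) (hw : ∀ x, w x ∈ Set.Icc (0 : ℝ) 1) (hnc : ¬ ∃ c, Tendsto w cofinite (𝓝 c))
    (hbd : Summable fun e : Y × G => μ e.2 * (|w e.1 - w (e.2 • e.1)| * (1 + gk γ e.1 e.1))) :
    ∃ F : Y → ℝ, Harm μ F ∧ (∀ x, 0 < F x) ∧ (∀ x, F x ≤ 2 + gk γ x x) ∧ ∃ x y, F x ≠ F y := by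
  have hbd' : Summable fun e : Y × G => μ e.2 * (|w e.1 - w (e.2 • e.1)| * gk γ e.1 e.1) := by
    refine Summable.of_nonneg_of_le (fun e => ?_) (fun e => ?_) hbd
    · exact mul_nonneg (hμ.nonneg _) (mul_nonneg (abs_nonneg _) (gk_self_nonneg _ _))
    · refine mul_le_mul_of_nonneg_left (mul_le_mul_of_nonneg_left ?_ (abs_nonneg _)) (hμ.nonneg _)
      linarith
  have hfin : Summable fun e : Y × G => gr μ w e ^ 2 := by
    refine Summable.of_nonneg_of_le (fun e => sq_nonneg _) (fun e => ?_) hbd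
    rw [gr_sq hμ]
    refine mul_le_mul_of_nonneg_left ?_ (hμ.nonneg _)
    have h1 : |w e.1 - w (e.2 • e.1)| ≤ 1 := by
      rw [abs_le]
      constructor <;> linarith [(hw e.1).1, (hw e.1).2, (hw (e.2 • e.1)).1, (hw (e.2 • e.1)).2]
    have h2 : (w e.1 - w (e.2 • e.1)) ^ 2 ≤ |w e.1 - w (e.2 • e.1)| := by
      rw [← sq_abs]
      nlinarith [abs_nonneg (w e.1 - w (e.2 • e.1))]
    refine h2.trans ?_
    exact le_mul_of_one_le_right (abs_nonneg _) (by linarith [gk_self_nonneg γ e.1])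
  let h0 : L2 (Y × G) := mk2 _ hfin
  have hcs : CompleteSpace (N0 (Y := Y) hμ) := (isClosed_N0 hμ).completeSpace_coe
  obtain ⟨k, hkN, r, hr, hkr⟩ := (N0 (Y := Y) hμ).exists_add_mem_mem_orthogonal h0
  let v : Y → ℝ := fun x => inner ℝ (γ x) k
  have hv : InD0 hμ γ v k := ⟨hkN, fun x => rfl⟩
  let H : Y → ℝ := fun x => w x - v x
  have hrH : ∀ e, r e = gr μ H e := by
    intro e
    have h1 : r = h0 - k := by rw [hkr]; abel
    have h2 : r e = h0 e - k e := by rw [h1]; rfl
    rw [h2, hv.eq_gr hγ]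
    show gr μ w e - gr μ v e = _
    simp only [gr, H]
    ring
  have hr' : ∀ h ∈ N0 (Y := Y) hμ, inner ℝ h r = 0 := fun h hh => hr h hh
  have hHH : Harm μ H := by
    intro x
    have h1 := hasSum_harm hμ H r hrH x
    rw [hr' _ (D_mem hμ _)] at h1
    simpa using h1
  -- H ≤ 1
  have hH1 : ∀ x, H x ≤ 1 := by
    obtain ⟨k1, hk1, -⟩ := hv.contract hγ (fun t => max (-t) 0) (by simp) (fun a b => by
      refine (abs_max_sub_max_le_max _ _ _ _).trans ?_
      rw [sub_self, abs_zero]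
      refine max_le ?_ (abs_nonneg _)
      rw [← abs_neg]
      ring_nf
      exact le_rfl)
    intro x
    have h1 := clamp_zero hγ hr' hrH hk1 (fun t => max (t - 1) 0) (fun a b => by
      rcases le_total (a - 1) 0 with h1 | h1 <;> rcases le_total (b - 1) 0 with h2 | h2
      · rw [max_eq_right h1, max_eq_right h2]; simp
      · rw [max_eq_right h1, max_eq_left h2]; nlinarith
      · rw [max_eq_left h1, max_eq_right h2]; nlinarith
      · rw [max_eq_left h1, max_eq_left h2]; nlinarith) (fun x => le_max_right _ _)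
      (fun x => by
        refine max_le_max ?_ le_rfl
        have : w x ≤ 1 := (hw x).2
        simp only [H]
        linarith) x
    have h2 : H x - 1 ≤ max (H x - 1) 0 := le_max_left _ _
    linarith
  have hH0 : ∀ x, 0 ≤ H x := by
    obtain ⟨k1, hk1, -⟩ := hv.contract hγ (fun t => max t 0) (by simp) (fun a b => by
      refine (abs_max_sub_max_le_max _ _ _ _).trans ?_
      rw [sub_self, abs_zero]
      exact max_le le_rfl (abs_nonneg _))
    intro x
    have hr2 : ∀ h ∈ N0 (Y := Y) hμ, inner ℝ h (-r) = 0 := fun h hh => by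
      rw [inner_neg_right, hr' h hh, neg_zero]
    have hrH2 : ∀ e, (-r) e = gr μ (fun x => - H x) e := by
      intro e
      have : (-r) e = - (r e) := rfl
      rw [this, hrH]
      simp only [gr]
      ring
    have h1 := clamp_zero hγ hr2 hrH2 hk1 (fun t => max t 0) (fun a b => by
      rcases le_total a 0 with h1 | h1 <;> rcases le_total b 0 with h2 | h2
      · rw [max_eq_right h1, max_eq_right h2]; simp
      · rw [max_eq_right h1, max_eq_left h2]; nlinarith
      · rw [max_eq_left h1, max_eq_right h2]; nlinarith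
      · rw [max_eq_left h1, max_eq_left h2]; nlinarith) (fun x => le_max_right _ _)
      (fun x => by
        refine max_le_max ?_ le_rfl
        have : 0 ≤ w x := (hw x).1
        simp only [H]
        linarith) x
    have h2 : - H x ≤ max (- H x) 0 := le_max_left _ _
    linarith
  by_cases hconst : ∃ x y, H x ≠ H y
  · obtain ⟨x, y, hxy⟩ := hconst
    refine ⟨fun x => 1 + H x, ?_, fun x => by linarith [hH0 x], fun x => ?_, x, y, ?_⟩
    · intro x
      have h1 := (hμ.total.add (hHH x))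
      refine h1.congr_fun ?_ |> id
      intro s
      ring
    · have := hH1 x
      have := gk_self_nonneg γ x
      linarith
    · intro h
      exact hxy (by simpa using h)
  · push Not at hconst
    obtain ⟨x0⟩ := ‹Nonempty Y›
    set κ := H x0 with hκ
    have hHκ : ∀ x, H x = κ := fun x => hconst x x0
    have hvw : ∀ x, v x = w x - κ := fun x => by
      have := hHκ x
      simp only [H] at this
      linarith
    obtain ⟨l, hl, a, haκ, hla⟩ := exists_ultrafilter hw hnc κ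
    have hvl : Tendsto v l (𝓝 (a - κ)) := by
      have h1 : Tendsto (fun x => w x - κ) l (𝓝 (a - κ)) := hla.sub tendsto_const_nhds
      refine h1.congr fun x => ?_
      exact (hvw x).symm
    choose f hf0 hf using fun x => exists_lim hγ l x
    have hbv : Summable fun e : Y × G => μ e.2 * (|v e.1 - v (e.2 • e.1)| * gk γ e.1 e.1) := by
      refine hbd'.congr fun e => ?_
      rw [hvw, hvw]
      congr 3
      ring
    obtain ⟨h1, h2, h3, h4⟩ := lim_harm hγ had hdom l hl f hf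
      (lim_ne_zero hγ v hv hbv l (sub_ne_zero.2 haκ) hvl f hf)
    exact ⟨f, h1, h2, fun x => by linarith [h3 x], h4⟩

end

end Pool.Agent.SchEnds
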